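import Pool.Agent.H40.BP.Stm4

/-!
# Quillen's question for `W[[X_0,...,X_n]]`: general parameters, statements of the parts
-/

set_option autoImplicit false

open Polynomial

noncomputable section

namespace Pool.Agent.H40.BP

open BQ IsLocalRing Pool.Agent.W394.BQN

/-- AUTD: AUTC with more information -/
def S_AUTD : Prop := ∀ (n : ℕ) (W : Type) [CommRing W] [IsLocalRing W]
  (f : MvPowerSeries (Fin (n + 1)) W), UC f →
    ∃ (σ : MvPowerSeries (Fin (n + 1)) W ≃+* MvPowerSeries (Fin (n + 1)) W) (k : ℕ),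
      IsUnit (MvPowerSeries.coeff (Finsupp.single 0 k) (σ f)) ∧
      (∀ a : W, σ (MvPowerSeries.C a) = MvPowerSeries.C a) ∧
      (∀ h, MvPowerSeries.constantCoeff (σ h) = MvPowerSeries.constantCoeff h) ∧
      (∀ h, MvPowerSeries.coeff (Finsupp.single 0 1) (σ h) =
        MvPowerSeries.coeff (Finsupp.single 0 1) h)

/-- WEI1: Weierstrass preparation in degree one -/
def S_WEI1 : Prop := ∀ (B : Type) [CommRing B] [IsLocalRing B] [IsAdicComplete (maximalIdeal B) B]
  (F : PowerSeries B), PowerSeries.constantCoeff F ∈ maximalIdeal B →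
    IsUnit (PowerSeries.coeff 1 F) →
    ∃ b ∈ maximalIdeal B, ∃ v : PowerSeries B, IsUnit v ∧
      F = (PowerSeries.X - PowerSeries.C b) * v

/-- NODEL: the rings `L[x,y]/(xy-u)`, `L` a regular local ring of dimension at most two, `u` not
in the square of the maximal ideal (`u` may be a unit) -/
def S_NODEL : Prop := ∀ (L : Type) [CommRing L] [IsRegularLocalRing L],
  ringKrullDim L ≤ ((2 : ℕ) : WithBot ℕ∞) → ∀ u : L, u ∉ maximalIdeal L ^ 2 →
    IsDomain (QF (rel 2 1 u)) ∧ AF (QF (rel 2 1 u))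

/-- LOCNODE: the local rings of `A[x,y]/(xy-u)` -/
def S_LOCNODE : Prop := ∀ (A : Type) [CommRing A] (u : A) (M : Ideal (QF (rel 2 1 u)))
  [M.IsPrime], ∃ (p : Ideal A) (_ : p.IsPrime)
    (q : Ideal (QF (rel 2 1 (algebraMap A (Localization.AtPrime p) u)))) (_ : q.IsPrime),
    Nonempty (Localization.AtPrime M ≃+* Localization.AtPrime q)

end Pool.Agent.H40.BP
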