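import Pool.Agent.H40.BP.AUT
import Pool.Agent.H40.BP.Stm5

/-!
# AUTD: the automorphism of AUT keeps the constant and the linear coefficient (helper475)
-/

set_option autoImplicit false

open MvPowerSeries

noncomputable section

namespace Pool.Agent.H40.BP

namespace Autd

open Aut

variable {n : ℕ} {W : Type} [CommRing W]

theorem coeff_au (w : Fin (n + 1) → ℕ) (hw0 : w 0 = 1) (hw : ∀ s, w s ≠ 0)
    (h : MvPowerSeries (Fin (n + 1)) W) (k : ℕ) :
    coeff (Finsupp.single 0 k) (au w hw h) =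
      ∑ᶠ d : Fin (n + 1) →₀ ℕ, coeff d h • (if ∑ s, w s * d s = k then (1 : W) else 0) := by
  rw [au_apply, coeff_subst (aa_hasSubst _ _ hw)]
  simp only [coeff_prod_aa w hw0]

theorem coeff_zero (w : Fin (n + 1) → ℕ) (hw0 : w 0 = 1) (hw : ∀ s, w s ≠ 0)
    (h : MvPowerSeries (Fin (n + 1)) W) :
    constantCoeff (au w hw h) = constantCoeff h := by
  have h1 := coeff_au w hw0 hw h 0
  rw [Finsupp.single_zero, coeff_zero_eq_constantCoeff_apply] at h1
  rw [h1, finsum_eq_single _ (0 : Fin (n + 1) →₀ ℕ)]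
  · simp
  · intro d hd
    rw [if_neg, smul_zero]
    intro h2
    apply hd
    ext s
    have h3 := (Finset.sum_eq_zero_iff.1 h2) s (Finset.mem_univ s)
    have h4 := hw s
    simpa [h4] using h3

theorem coeff_one (w : Fin (n + 1) → ℕ) (hw0 : w 0 = 1) (hw : ∀ s, w s ≠ 0)
    (hw2 : ∀ s, s ≠ 0 → 2 ≤ w s) (h : MvPowerSeries (Fin (n + 1)) W) :
    coeff (Finsupp.single 0 1) (au w hw h) = coeff (Finsupp.single 0 1) h := by
  rw [coeff_au w hw0 hw h 1, finsum_eq_single _ (Finsupp.single 0 1 : Fin (n + 1) →₀ ℕ)]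
  · rw [if_pos, smul_eq_mul, mul_one]
    rw [Finset.sum_eq_single 0]
    · rw [hw0, one_mul, Finsupp.single_eq_same]
    · intro s _ hs
      rw [Finsupp.single_eq_of_ne hs, mul_zero]
    · intro h2
      exact absurd (Finset.mem_univ _) h2
  · intro d hd
    rw [if_neg, smul_zero]
    intro h2
    apply hd
    have h3 : ∀ s, s ≠ 0 → d s = 0 := by
      intro s hs
      by_contra h4
      have h5 : w s * d s ≤ ∑ s, w s * d s :=
        Finset.single_le_sum (f := fun s => w s * d s) (fun _ _ => Nat.zero_le _) (Finset.mem_univ s)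
      rw [h2] at h5
      have h6 := hw2 s hs
      have h7 : 2 * 1 ≤ w s * d s := Nat.mul_le_mul h6 (Nat.one_le_iff_ne_zero.2 h4)
      omega
    have h4 : d 0 = 1 := by
      rw [Finset.sum_eq_single 0 (fun s _ hs => by rw [h3 s hs, mul_zero])
        (fun h => absurd (Finset.mem_univ _) h), hw0, one_mul] at h2
      exact h2
    ext s
    by_cases hs : s = 0
    · subst hs
      rw [h4, Finsupp.single_eq_same]
    · rw [h3 s hs, Finsupp.single_eq_of_ne hs]

end Autd

open Aut in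
theorem t_AUTD : S_AUTD := by
  intro n W _ _ f hf
  classical
  obtain ⟨ν₀, hν₀, M₀, hM₀⟩ := pick (n + 1)
    {ν | IsUnit (MvPowerSeries.coeff (Finsupp.equivFunOnFinite.symm ν) f)} (by
      obtain ⟨ν, hν⟩ := hf
      refine ⟨ν, ?_⟩
      show IsUnit (MvPowerSeries.coeff (Finsupp.equivFunOnFinite.symm ⇑ν) f)
      rwa [Finsupp.equivFunOnFinite_symm_coe])
  set M := M₀ + 2 with hM
  obtain ⟨-, huniq⟩ := hM₀ M (by omega)
  set w : Fin (n + 1) → ℕ := fun s => M ^ (s : ℕ) with hw
  have hw1 : ∀ s, w s ≠ 0 := fun s => by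
    have : 0 < M ^ (s : ℕ) := pow_pos (by omega) _
    simp only [hw]
    omega
  have hw0 : w 0 = 1 := by simp [hw]
  set k := ∑ s, w s * ν₀ s with hk
  have hw2 : ∀ s, s ≠ 0 → 2 ≤ w s := by
    intro s hs
    have h1 : (s : ℕ) ≠ 0 := fun h => hs (Fin.ext h)
    have h2 : M ≤ M ^ (s : ℕ) := Nat.le_self_pow h1 M
    show 2 ≤ M ^ (s : ℕ)
    omega
  refine ⟨au w hw1, k, ?_, fun a => ?_, fun h => ?_, fun h => ?_⟩
  rotate_left
  · rw [au_apply, ← substAlgHom_apply (aa_hasSubst (1 : W) w hw1)]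
    have h := (substAlgHom (R := W) (aa_hasSubst (1 : W) w hw1)).commutes a
    rwa [MvPowerSeries.algebraMap_apply, Algebra.algebraMap_self_apply] at h
  · exact Autd.coeff_zero w hw0 hw1 h
  · exact Autd.coeff_one w hw0 hw1 hw2 h
  rw [au_apply, coeff_subst (aa_hasSubst _ _ hw1)]
  have hfs := coeff_subst_finite (aa_hasSubst (1 : W) w hw1) f (Finsupp.single 0 k)
  simp only [coeff_prod_aa w hw0] at hfs ⊢
  set d₀ : Fin (n + 1) →₀ ℕ := Finsupp.equivFunOnFinite.symm ν₀ with hd₀
  set F : (Fin (n + 1) →₀ ℕ) → W :=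
    fun d => coeff d f • (if ∑ s, w s * d s = k then (1 : W) else 0) with hF
  have hsupp : (Function.support F).Finite := hfs
  set T : Finset (Fin (n + 1) →₀ ℕ) := insert d₀ hsupp.toFinset with hT
  rw [finsum_eq_sum_of_support_subset F (s := T) (by
    intro d hd
    simp only [hT, Finset.coe_insert, Set.Finite.coe_toFinset]
    exact Or.inr hd), ← Finset.add_sum_erase T F (Finset.mem_insert_self _ _)]
  have hF0 : F d₀ = coeff d₀ f := by
    simp only [hF]
    rw [if_pos, smul_eq_mul, mul_one]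
    simp [hd₀, hk]
  have hrest : ∑ d ∈ T.erase d₀, F d ∈ IsLocalRing.maximalIdeal W := by
    apply Ideal.sum_mem
    intro d hd
    have hne : d ≠ d₀ := (Finset.mem_erase.mp hd).1
    simp only [hF]
    split_ifs with h
    · rw [smul_eq_mul, mul_one, IsLocalRing.mem_maximalIdeal, mem_nonunits_iff]
      intro hu
      apply hne
      have := huniq (⇑d) (by
        show IsUnit (MvPowerSeries.coeff (Finsupp.equivFunOnFinite.symm ⇑d) f)
        rwa [Finsupp.equivFunOnFinite_symm_coe]) h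
      rw [hd₀, ← this, Finsupp.equivFunOnFinite_symm_coe]
    · simp
  rw [hF0]
  by_contra hnu
  have h1 : coeff d₀ f + ∑ d ∈ T.erase d₀, F d ∈ IsLocalRing.maximalIdeal W :=
    (IsLocalRing.mem_maximalIdeal _).mpr hnu
  have h2 : coeff d₀ f ∈ IsLocalRing.maximalIdeal W := by
    have := Ideal.sub_mem _ h1 hrest
    rwa [add_sub_cancel_right] at this
  exact (IsLocalRing.mem_maximalIdeal _).mp h2 hν₀

end Pool.Agent.H40.BP
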