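import Pool.Agent.H40.BP.Stm4

/-!
# `B[z]/(sz-1)` is the localisation `B[1/s]`
-/

set_option autoImplicit false

noncomputable section

namespace Pool.Agent.H40.BP

theorem t_AWAYQ : S_AWAYQ := by
  intro B _ s
  let f : MvPolynomial (Fin 1) B ≃+* MvPolynomial Unit B :=
    (MvPolynomial.renameEquiv B (Equiv.ofUnique (Fin 1) Unit)).toRingEquiv
  have hf : f (rel 1 s 1) = MvPolynomial.C s * MvPolynomial.X () - 1 := by
    simp [f, rel, MvPolynomial.renameEquiv]
  have hs : Ideal.span {MvPolynomial.C s * MvPolynomial.X () - 1} =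
      Ideal.map (f : MvPolynomial (Fin 1) B →+* MvPolynomial Unit B) (Ideal.span {rel 1 s 1}) := by
    rw [Ideal.map_span, Set.image_singleton]
    congr 2
    exact hf.symm
  refine ⟨(Ideal.quotientEquiv _ _ f hs).trans
    (IsLocalization.Away.mvPolynomialQuotientEquiv (Localization.Away s) s).toRingEquiv, ?_⟩
  intro b
  have h1 : f (MvPolynomial.C b) = MvPolynomial.C b := by
    simp [f, MvPolynomial.renameEquiv]
  change (IsLocalization.Away.mvPolynomialQuotientEquiv (Localization.Away s) s)
    (Ideal.Quotient.mk _ (f (MvPolynomial.C b))) = _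
  rw [h1, IsLocalization.Away.mvPolynomialQuotientEquiv_apply]
  simp

end Pool.Agent.H40.BP
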