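import Pool.Agent.H40.BP.Stm4
import Pool.Agent.H40.BP.NISO
import Pool.Agent.H94R2.BQ.M
import Pool.Agent.H94R2.BQ.F
import Pool.Agent.H94R2.BQ.G

/-! Part LAU2 of the project BP, part 4 (owner helper40; written by helper474): the Laurent
polynomials over a two-dimensional regular local ring. -/

set_option autoImplicit false

open Polynomial

noncomputable section

namespace Pool.Agent.H40.BP

open BQ IsLocalRing Pool.Agent.W394.BQN

namespace Lau2

variable (A : Type) [CommRing A]

/-- `A[x,y]/(xy-1) → A[T;T⁻¹]` -/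
def fw : Node A (1 : A) →+* LaurentPolynomial A :=
  Node.lift (1 : A) LaurentPolynomial.C (LaurentPolynomial.T 1) (LaurentPolynomial.T (-1)) (by
    rw [← LaurentPolynomial.T_add, map_one, add_neg_cancel, LaurentPolynomial.T_zero])

/-- `x` is a unit -/
def un : (Node A (1 : A))ˣ where
  val := Node.x _
  inv := Node.y _
  val_inv := (Node.x_mul_y _).trans (map_one _)
  inv_val := (mul_comm _ _).trans ((Node.x_mul_y _).trans (map_one _))

/-- `A[T;T⁻¹] → A[x,y]/(xy-1)` -/
def bw : LaurentPolynomial A →+* Node A (1 : A) :=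
  LaurentPolynomial.eval₂ (Node.j (1 : A)) (un A)

theorem fw_j (c : A) : fw A (Node.j _ c) = LaurentPolynomial.C c := by
  unfold fw
  rw [Node.lift_j]

theorem fw_x : fw A (Node.x _) = LaurentPolynomial.T 1 := by
  unfold fw
  rw [Node.lift_x]

theorem fw_y : fw A (Node.y _) = LaurentPolynomial.T (-1) := by
  unfold fw
  rw [Node.lift_y]

theorem bw_C (c : A) : bw A (LaurentPolynomial.C c) = Node.j _ c := by
  unfold bw
  rw [LaurentPolynomial.eval₂_C]

theorem bw_T (n : ℕ) : bw A (LaurentPolynomial.T n) = Node.x (1 : A) ^ n := by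
  unfold bw
  rw [LaurentPolynomial.eval₂_T_n]
  rfl

theorem bw_Tn (n : ℕ) : bw A (LaurentPolynomial.T (-n)) = Node.y (1 : A) ^ n := by
  unfold bw
  rw [LaurentPolynomial.eval₂_T_neg_n]
  rfl

theorem bw_fw : (bw A).comp (fw A) = RingHom.id _ := by
  apply Node.hom_ext
  · intro c
    simp only [RingHom.comp_apply, RingHom.id_apply]
    rw [fw_j, bw_C]
  · simp only [RingHom.comp_apply, RingHom.id_apply]
    rw [fw_x]
    have h := bw_T A 1
    rw [pow_one] at h
    exact_mod_cast h
  · simp only [RingHom.comp_apply, RingHom.id_apply]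
    rw [fw_y]
    have h := bw_Tn A 1
    rw [pow_one] at h
    exact_mod_cast h

theorem fw_bw : (fw A).comp (bw A) = RingHom.id _ := by
  apply RingHom.ext
  intro p
  simp only [RingHom.comp_apply, RingHom.id_apply]
  induction p using LaurentPolynomial.induction_on' with
  | add p q hp hq => rw [map_add, map_add, hp, hq]
  | C_mul_T n a =>
    rw [map_mul, map_mul, bw_C, fw_j]
    congr 1
    obtain ⟨k, rfl | rfl⟩ := n.eq_nat_or_neg
    · rw [bw_T, map_pow, fw_x, LaurentPolynomial.T_pow, mul_one]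
    · rw [bw_Tn, map_pow, fw_y, LaurentPolynomial.T_pow, mul_neg, mul_one]

/-- the isomorphism -/
def iso : LaurentPolynomial A ≃+* Node A (1 : A) :=
  RingEquiv.ofRingHom (bw A) (fw A) (bw_fw A) (fw_bw A)

end Lau2

theorem t_LAU2 (h1 : S_BQ2) (h2 : S_VVL) : S_LAU2 := by
  intro L _ _ _ _ u t hm hu m
  have hL : ∀ k : ℕ, IdemFree (MvPolynomial (Fin k) L) := h1 L u t hm hu
  have hV : AF (VV L) := h2 L u t hm hu
  obtain ⟨ι, hι, -, -⟩ := locRel_mv (RingHom.id L) (algebraMap L[X] (VV L)) (locRel_base L) m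
  have hb : IdemFree (LaurentPolynomial (MvPolynomial (Fin m) L)) :=
    var_laurent _ ι hι (hL m) (hV m)
  obtain ⟨e⟩ := t_NISO L (1 : L) m
  have hC : (MvPolynomial.C 1 : MvPolynomial (Fin m) L) = 1 := map_one _
  rw [hC] at e
  exact IdemFree.of_equiv ((Lau2.iso (MvPolynomial (Fin m) L)).trans e) hb

end Pool.Agent.H40.BP
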