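import Pool.Agent.H40.BP.Stm4
import Pool.Agent.H40.BP.SSX
import Pool.Agent.H40.BP.LOCPID

/-!
# `L[1/(uc)]` and its Laurent polynomials (project BP part 4 of helper40, written by helper148)
-/

set_option autoImplicit false

open Polynomial

noncomputable section

namespace Pool.Agent.H40.BP

open BQ IsLocalRing Pool.Agent.W394.BQN

namespace LOCSaux

theorem AF_pid (K : Type) [CommRing K] [IsDomain K] [IsPrincipalIdealRing K] : AF K :=
  fun m => quillen_suslin m K

theorem away_equiv {A Q : Type} [CommRing A] [CommRing Q] [Algebra A Q] (s : A)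
    [IsLocalization.Away s Q] : Nonempty (Localization.Away s ≃+* Q) :=
  ⟨(IsLocalization.algEquiv (Submonoid.powers s) (Localization.Away s) Q).toRingEquiv⟩

/-- Laurent polynomials over a localisation -/
theorem laurent {A B : Type} [CommRing A] [CommRing B] [Algebra A B] (s : A)
    [IsLocalization.Away s B] :
    Nonempty (Localization.Away (C s * X : A[X]) ≃+* Localization (Submonoid.powers (X : B[X]))) := by
  let _ : Algebra A[X] B[X] := (mapRingHom (algebraMap A B)).toAlgebra
  have h1 : IsLocalization ((Submonoid.powers s).map C) B[X] :=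
    Polynomial.isLocalization (Submonoid.powers s) B
  rw [Submonoid.map_powers] at h1
  have h2 : IsLocalization.Away (C s : A[X]) B[X] := h1
  have h3 : algebraMap A[X] B[X] X = X := by
    change (mapRingHom (algebraMap A B)) X = X
    simp
  have h4 : IsLocalization.Away (algebraMap A[X] B[X] X)
      (Localization.Away (algebraMap A[X] B[X] X)) := inferInstance
  have h5 : IsLocalization.Away (C s * X : A[X]) (Localization.Away (algebraMap A[X] B[X] X)) :=
    IsLocalization.Away.mul' B[X] _ (C s) X
  obtain ⟨e⟩ := away_equiv (A := A[X]) (Q := Localization.Away (algebraMap A[X] B[X] X)) (C s * X)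
  rw [h3] at e
  exact ⟨e⟩

end LOCSaux

open LOCSaux LOCPIDAux in
theorem t_LOCS (h1 : S_L2) (h2 : S_LOCPID) (h3 : S_AWAYQ) (h4 : S_POLR) : S_LOCS := by
  intro L _ _ _ _ u t hut hu c hc
  obtain ⟨-, hP⟩ := h1 L u t hut hu
  have hu0 : u ≠ 0 := hu.ne_zero
  have hd1 : IsDomain (Localization.Away u) := dom_loc _ (by
    rintro ⟨k, hk⟩
    exact pow_ne_zero k hu0 hk)
  have hle : Submonoid.powers u ≤ nonZeroDivisors L := by
    rintro _ ⟨k, rfl⟩
    exact mem_nonZeroDivisors_of_ne_zero (pow_ne_zero k hu0)
  have hinj : Function.Injective (algebraMap L (Localization.Away u)) :=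
    IsLocalization.injective (Localization.Away u) hle
  have hc0 : algebraMap L (Localization.Away u) c ≠ 0 := fun h =>
    hc (hinj (h.trans (map_zero _).symm))
  have hd2 : IsDomain (Localization.Away (algebraMap L (Localization.Away u) c)) :=
    dom_loc _ (by
      rintro ⟨k, hk⟩
      exact pow_ne_zero k hc0 hk)
  have hp2 : IsPrincipalIdealRing (Localization.Away (algebraMap L (Localization.Away u) c)) :=
    pir_loc _
  have hloc : IsLocalization.Away (u * c)
      (Localization.Away (algebraMap L (Localization.Away u) c)) := inferInstance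
  obtain ⟨e⟩ := away_equiv (A := L)
    (Q := Localization.Away (algebraMap L (Localization.Away u) c)) (u * c)
  constructor
  · obtain ⟨e1, -⟩ := h3 L (u * c)
    exact AF.of_equiv (e1.trans e).symm (AF_pid _)
  · obtain ⟨e2⟩ := h4 L 1 (u * c) 1
    obtain ⟨e3, -⟩ := h3 L[X] (C (u * c) * X)
    obtain ⟨e4⟩ := laurent (A := L)
      (B := Localization.Away (algebraMap L (Localization.Away u) c)) (u * c)
    have h5 := h2 (Localization.Away (algebraMap L (Localization.Away u) c))
      (Submonoid.powers X) (by
        rintro _ ⟨k, rfl⟩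
        exact monic_X_pow k)
    rw [map_one] at e2
    exact AF.of_equiv (e2.trans (e3.trans e4)).symm h5

end Pool.Agent.H40.BP
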