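import Pool.Agent.H40.BP.Stm4
import Pool.Agent.H40.BP.SSX

/-!
# Quillen's question for `W[[X_0,...,X_n]]`
-/

set_option autoImplicit false

open Polynomial

noncomputable section

namespace Pool.Agent.H40.BP

open BQ IsLocalRing Pool.Agent.W394.BQN

/-- `S_STEPQ` in a form adapted to the relations, with `Ω` obtained by base change -/
theorem stepQ_bc (h : S_STEPQ) (hBC : S_BC) (W : Type) [CommRing W] [IsDomain W] [IsLocalRing W]
    [IsNoetherianRing W]
    [IsAdicComplete (maximalIdeal W) W] (r l : ℕ) (s u : W[X])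
    (s₁ u₁ : (MvPowerSeries (Fin r) W)[X]) (s₂ u₂ : MvPowerSeries (Fin (r + 1)) W)
    (e1 : im r W s = s₁) (e2 : im r W u = u₁) (e3 : ip r W s = s₂) (e4 : ip r W u = u₂)
    (hd1 : IsDomain (QF (rel l s₁ u₁))) (hd2 : IsDomain (QF (rel l s₂ u₂)))
    (hne : ∀ f : MvPowerSeries (Fin (r + 1)) W, UC f →
      qm (rel l s₂ u₂) (MvPolynomial.C f) ≠ 0)
    (hAF : AF (QF (rel l s₁ u₁)))
    (L : Type) [CommRing L] (φ : MvPowerSeries (Fin (r + 1)) W →+* L)
    (hφ : Function.Injective φ) (hfrac : ∀ z : L, ∃ f, UC f ∧ ∃ b, φ f * z = φ b)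
    (hL : AF (QF (rel l (φ s₂) (φ u₂)))) : AF (QF (rel l s₂ u₂)) := by
  have hdom : IsDomain (MvPowerSeries (Fin (r + 1)) W) := NoZeroDivisors.to_isDomain _
  obtain ⟨ψ, hψ, hψf⟩ := hBC (MvPowerSeries (Fin (r + 1)) W) L φ hφ (ucS W (r + 1))
    (fun z => by
      obtain ⟨f, hf, b, hb⟩ := hfrac z
      exact ⟨f, mem_ucS.2 hf, b, hb⟩) l (rel l s₂ u₂) hd2
    (fun f hf => hne f (mem_ucS.1 hf))
  have hL' : AF (QF (MvPolynomial.map φ (rel l s₂ u₂))) := by rwa [map_rel]
  have key := h W r l (rel l s u)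
  rw [map_rel, map_rel, e1, e2, e3, e4] at key
  refine key hd1 hd2 hne hAF _ ψ hψ ?_ hL'
  intro ω
  obtain ⟨f, hf, a, ha⟩ := hψf ω
  exact ⟨f, mem_ucS.1 hf, a, ha⟩

section dom

theorem domQ1 (hA : S_AWAYQ) (B : Type) [CommRing B] [IsDomain B] (s : B) (hs : s ≠ 0) :
    IsDomain (QF (rel 1 s 1)) ∧ ∀ b : B, qm (rel 1 s 1) (MvPolynomial.C b) = 0 → b = 0 := by
  obtain ⟨e, he⟩ := hA B s
  have hle : Submonoid.powers s ≤ nonZeroDivisors B :=
    powers_le_nonZeroDivisors_of_noZeroDivisors hs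
  have hd : IsDomain (Localization.Away s) := IsLocalization.isDomain_localization hle
  refine ⟨MulEquiv.isDomain _ e.toMulEquiv, fun b hb => ?_⟩
  have h1 := he b
  rw [hb, map_zero] at h1
  exact IsLocalization.injective (Localization.Away s) hle (by rw [← h1, map_zero])

theorem domQ2 (hA : S_AWAYQ) (hP : S_POLR) (B : Type) [CommRing B] [IsDomain B] (s : B)
    (hs : s ≠ 0) :
    IsDomain (QF (rel 2 s 1)) ∧ ∀ b : B, qm (rel 2 s 1) (MvPolynomial.C b) = 0 → b = 0 := by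
  constructor
  · obtain ⟨e⟩ := hP B 1 s 1
    rw [Polynomial.C_1] at e
    have h1 := (domQ1 hA B[X] (Polynomial.C s * X)
      (mul_ne_zero (Polynomial.C_ne_zero.2 hs) Polynomial.X_ne_zero)).1
    exact MulEquiv.isDomain _ e.toMulEquiv
  · intro b hb
    have hle : Submonoid.powers s ≤ nonZeroDivisors B :=
      powers_le_nonZeroDivisors_of_noZeroDivisors hs
    let ev : MvPolynomial (Fin 2) B →+* Localization.Away s :=
      MvPolynomial.eval₂Hom (algebraMap B (Localization.Away s))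
        ![1, IsLocalization.Away.invSelf s]
    have hz : ev (rel 2 s 1) = 0 := by
      simp only [ev, rel, map_sub, map_mul, MvPolynomial.eval₂Hom_C,
        MvPolynomial.eval₂Hom_X', Fin.prod_univ_two, Matrix.cons_val_zero, Matrix.cons_val_one,
        one_mul, map_one]
      rw [IsLocalization.Away.mul_invSelf, sub_self]
    have h0 : MvPolynomial.C b ∈ Ideal.span {rel 2 s 1} := Ideal.Quotient.eq_zero_iff_mem.1 hb
    obtain ⟨c, hc⟩ := Ideal.mem_span_singleton'.1 h0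
    have h1 : ev (MvPolynomial.C b) = 0 := by
      rw [← hc, map_mul, hz, mul_zero]
    have h2 : algebraMap B (Localization.Away s) b = 0 := by
      rw [← h1]
      simp [ev]
    exact IsLocalization.injective (Localization.Away s) hle (by rw [h2, map_zero])

end dom

section

variable (hSTEPQ : S_STEPQ) (hL1 : S_L1) (hBC : S_BC) (hPOLF : S_POLF)
  (hPOLR : S_POLR) (hBQ2 : S_BQ2) (hUN : S_UN) (hAWAYQ : S_AWAYQ) (hLAU2 : S_LAU2)
  (hLOCS : S_LOCS)

/-- the elements inverted -/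
def GoodS {W : Type} [CommRing W] (u s : W) : Prop := s = 1 ∨ ∃ c, c ≠ 0 ∧ s = u * c

theorem GoodS.ne_zero {W : Type} [CommRing W] [IsDomain W] {u s : W} (hu : u ≠ 0)
    (h : GoodS u s) : s ≠ 0 := by
  rcases h with rfl | ⟨c, hc, rfl⟩
  · exact one_ne_zero
  · exact mul_ne_zero hu hc

theorem GoodS.map {W L : Type} [CommRing W] [CommRing L] (φ : W →+* L)
    (hφ : Function.Injective φ) {u s : W} (h : GoodS u s) : GoodS (φ u) (φ s) := by
  rcases h with rfl | ⟨c, hc, rfl⟩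
  · left
    exact map_one φ
  · right
    exact ⟨φ c, fun h0 => hc (hφ (by rw [h0, map_zero])), map_mul φ u c⟩

include hBQ2 hUN hLAU2 hLOCS in
theorem genL (l : ℕ) (hl : l = 1 ∨ l = 2) (L : Type) [CommRing L] [IsDomain L] [IsLocalRing L]
    [IsNoetherianRing L] (u t : L) (hm : maximalIdeal L = Ideal.span {u, t}) (hu : Prime u)
    (s : L) (hs : GoodS u s) : AF (QF (rel l s 1)) := by
  rcases hs with rfl | ⟨c, hc, rfl⟩
  · rcases hl with rfl | rfl
    · obtain ⟨e⟩ := hUN L 1 1 isUnit_one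
      exact AF.of_equiv e.symm (hBQ2 L u t hm hu)
    · exact hLAU2 L u t hm hu
  · rcases hl with rfl | rfl
    · exact (hLOCS L u t hm hu c hc).1
    · exact (hLOCS L u t hm hu c hc).2

include hSTEPQ hL1 hBC hPOLF hPOLR hBQ2 hUN hAWAYQ hLAU2 hLOCS in
/-- the rings `W[[X]][1/s]` and `W[[X]][1/s][w,1/w]` -/
theorem q0 (l : ℕ) (hl : l = 1 ∨ l = 2) (W : Type) [CommRing W] [IsDomain W] [IsLocalRing W]
    [IsNoetherianRing W]
    [IsAdicComplete (maximalIdeal W) W] (u t : W) (hut : maximalIdeal W = Ideal.span {u, t})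
    (hu : Prime u) (s : W) (hs : GoodS u s) (r : ℕ) :
    AF (QF (rel l (MvPowerSeries.C s : MvPowerSeries (Fin r) W) 1)) := by
  have hs0 : s ≠ 0 := hs.ne_zero hu.ne_zero
  have hCs0 : ∀ n : ℕ, (MvPowerSeries.C s : MvPowerSeries (Fin n) W) ≠ 0 := by
    intro n h
    have h1 := congrArg MvPowerSeries.constantCoeff h
    rw [MvPowerSeries.constantCoeff_C, map_zero] at h1
    exact hs0 h1
  have hdomQ : ∀ (B : Type) [CommRing B] [IsDomain B] (s : B), s ≠ 0 →
      IsDomain (QF (rel l s 1)) ∧ ∀ b : B, qm (rel l s 1) (MvPolynomial.C b) = 0 → b = 0 := by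
    intro B _ _ s hs
    rcases hl with rfl | rfl
    · exact domQ1 hAWAYQ B s hs
    · exact domQ2 hAWAYQ hPOLR B s hs
  induction r with
  | zero =>
    refine AF.qf (MvPowerSeries.isEmptyEquiv (Fin 0) W).toRingEquiv.symm l s 1 _ _ ?_ (map_one _)
      (genL hBQ2 hUN hLAU2 hLOCS l hl W u t hut hu s hs)
    rfl
  | succ r ih =>
    have hB : IsDomain (MvPowerSeries (Fin r) W) := NoZeroDivisors.to_isDomain _
    have hB' : IsDomain (MvPowerSeries (Fin (r + 1)) W) := NoZeroDivisors.to_isDomain _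
    obtain ⟨L, _, _, _, _, φ, hφ, hfrac, hunit, hmax, hprL⟩ := hL1 W u t hut hu (r + 1)
    have hD := hdomQ _ (MvPowerSeries.C s : MvPowerSeries (Fin (r + 1)) W) (hCs0 (r + 1))
    refine stepQ_bc hSTEPQ hBC W r l (Polynomial.C s) 1 (Polynomial.C (MvPowerSeries.C s)) 1
      (MvPowerSeries.C s) 1 (im_C r W s) (map_one _) (ip_C r W s) (map_one _) ?_ hD.1 ?_ ?_
      L φ hφ hfrac ?_
    · exact (hdomQ _ (Polynomial.C (MvPowerSeries.C s : MvPowerSeries (Fin r) W))
        (Polynomial.C_ne_zero.2 (hCs0 r))).1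
    · intro f hf h0
      exact hf.ne_zero (hD.2 f h0)
    · obtain ⟨e⟩ := hPOLF (MvPowerSeries (Fin r) W) l (rel l (MvPowerSeries.C s) 1)
      have h1 := ih.poly.of_equiv e
      rwa [map_rel, map_one] at h1
    · rw [map_one]
      refine genL hBQ2 hUN hLAU2 hLOCS l hl L _ _ hmax hprL _ ?_
      rcases hs with rfl | ⟨c, hc, rfl⟩
      · left
        rw [map_one, map_one]
      · right
        refine ⟨φ (MvPowerSeries.C c), fun h0 => hc ?_, ?_⟩
        · have h1 : (MvPowerSeries.C c : MvPowerSeries (Fin (r + 1)) W) = 0 :=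
            hφ (by rw [h0, map_zero])
          have h2 := congrArg MvPowerSeries.constantCoeff h1
          rwa [MvPowerSeries.constantCoeff_C, map_zero] at h2
        · rw [map_mul, map_mul]

include hSTEPQ hL1 hBC hPOLF hPOLR hBQ2 hUN hAWAYQ hLAU2 hLOCS in
/-- the rings `W[[X_0,...,X_r]][1/(s X_0)]` -/
theorem q1 (W : Type) [CommRing W] [IsDomain W] [IsLocalRing W] [IsNoetherianRing W]
    [IsAdicComplete (maximalIdeal W) W] (u t : W) (hut : maximalIdeal W = Ideal.span {u, t})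
    (hu : Prime u) (s : W) (hs : GoodS u s) (r : ℕ) :
    AF (QF (rel 1 (MvPowerSeries.C s * MvPowerSeries.X 0 : MvPowerSeries (Fin (r + 1)) W) 1)) := by
  have hs0 : s ≠ 0 := hs.ne_zero hu.ne_zero
  have hCs0 : ∀ n : ℕ, (MvPowerSeries.C s : MvPowerSeries (Fin n) W) ≠ 0 := by
    intro n h
    have h1 := congrArg MvPowerSeries.constantCoeff h
    rw [MvPowerSeries.constantCoeff_C, map_zero] at h1
    exact hs0 h1
  have hB : IsDomain (MvPowerSeries (Fin r) W) := NoZeroDivisors.to_isDomain _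
  have hB' : IsDomain (MvPowerSeries (Fin (r + 1)) W) := NoZeroDivisors.to_isDomain _
  obtain ⟨L, _, _, _, _, φ, hφ, hfrac, hunit, hmax, hprL⟩ := hL1 W u t hut hu (r + 1)
  have hX0 : (MvPowerSeries.X 0 : MvPowerSeries (Fin (r + 1)) W) ≠ 0 := (uc_X 0).ne_zero
  have hD := domQ1 hAWAYQ _ (MvPowerSeries.C s * MvPowerSeries.X 0 :
    MvPowerSeries (Fin (r + 1)) W) (mul_ne_zero (hCs0 (r + 1)) hX0)
  refine stepQ_bc hSTEPQ hBC W r 1 (Polynomial.C s * X) 1
    (Polynomial.C (MvPowerSeries.C s) * X) 1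
    (MvPowerSeries.C s * MvPowerSeries.X 0) 1 (by rw [map_mul, im_C, im_X]) (map_one _)
    (by rw [map_mul, ip_C, ip_X]) (map_one _) ?_ hD.1 ?_ ?_
    L φ hφ hfrac ?_
  · exact (domQ1 hAWAYQ _ _ (mul_ne_zero (Polynomial.C_ne_zero.2 (hCs0 r))
      Polynomial.X_ne_zero)).1
  · intro f hf h0
    exact hf.ne_zero (hD.2 f h0)
  · obtain ⟨e⟩ := hPOLR (MvPowerSeries (Fin r) W) 1 (MvPowerSeries.C s) 1
    have h1 := (q0 hSTEPQ hL1 hBC hPOLF hPOLR hBQ2 hUN hAWAYQ hLAU2 hLOCS 2 (Or.inr rfl)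
      W u t hut hu s hs r).of_equiv e
    rwa [Polynomial.C_1] at h1
  · rw [map_one, map_mul]
    have hvu : IsUnit (φ (MvPowerSeries.X 0)) := hunit _ (uc_X 0)
    rcases hs with rfl | ⟨c, hc, rfl⟩
    · rw [map_one, map_one, one_mul]
      obtain ⟨e⟩ := hUN L (φ (MvPowerSeries.X 0)) 1 hvu
      exact AF.of_equiv e.symm (hBQ2 L _ _ hmax hprL)
    · have h1 : φ (MvPowerSeries.C c) ≠ 0 := by
        intro h0
        apply hc
        have h1 : (MvPowerSeries.C c : MvPowerSeries (Fin (r + 1)) W) = 0 :=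
          hφ (by rw [h0, map_zero])
        have h2 := congrArg MvPowerSeries.constantCoeff h1
        rwa [MvPowerSeries.constantCoeff_C, map_zero] at h2
      have h2 := (hLOCS L _ _ hmax hprL (φ (MvPowerSeries.C c) * φ (MvPowerSeries.X 0))
        (mul_ne_zero h1 hvu.ne_zero)).1
      have e1 : φ (MvPowerSeries.C (u * c)) * φ (MvPowerSeries.X 0) =
          φ (MvPowerSeries.C u) * (φ (MvPowerSeries.C c) * φ (MvPowerSeries.X 0)) := by
        rw [map_mul, map_mul, mul_assoc]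
      rw [e1]
      exact h2

include hSTEPQ hL1 hBC hPOLF hPOLR hBQ2 hUN hAWAYQ hLAU2 hLOCS in
theorem awayC (W : Type) [CommRing W] [IsDomain W] [IsLocalRing W] [IsNoetherianRing W]
    [IsAdicComplete (maximalIdeal W) W] (u t : W) (hut : maximalIdeal W = Ideal.span {u, t})
    (hu : Prime u) (s : W) (hs : GoodS u s) (r : ℕ) :
    AF (Localization.Away (MvPowerSeries.C s : MvPowerSeries (Fin r) W)) := by
  obtain ⟨e, -⟩ := hAWAYQ _ (MvPowerSeries.C s : MvPowerSeries (Fin r) W)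
  exact AF.of_equiv e (q0 hSTEPQ hL1 hBC hPOLF hPOLR hBQ2 hUN hAWAYQ hLAU2 hLOCS 1 (Or.inl rfl)
      W u t hut hu s hs r)

include hSTEPQ hL1 hBC hPOLF hPOLR hBQ2 hUN hAWAYQ hLAU2 hLOCS in
theorem awayCX (W : Type) [CommRing W] [IsDomain W] [IsLocalRing W] [IsNoetherianRing W]
    [IsAdicComplete (maximalIdeal W) W] (u t : W) (hut : maximalIdeal W = Ideal.span {u, t})
    (hu : Prime u) (s : W) (hs : GoodS u s) (r : ℕ) :
    AF (Localization.Away (MvPowerSeries.C s * MvPowerSeries.X 0 :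
      MvPowerSeries (Fin (r + 1)) W)) := by
  obtain ⟨e, -⟩ := hAWAYQ _ (MvPowerSeries.C s * MvPowerSeries.X 0 :
      MvPowerSeries (Fin (r + 1)) W)
  exact AF.of_equiv e (q1 hSTEPQ hL1 hBC hPOLF hPOLR hBQ2 hUN hAWAYQ hLAU2 hLOCS
      W u t hut hu s hs r)

end

end Pool.Agent.H40.BP
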