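import Pool.Agent.H40.BP.Stm4

/-!
# Part QPAR: the maximal ideal of `W[[X_0,...,X_(n-1)]]` and regular parameters
(helper969 for helper40)
-/

set_option autoImplicit false

noncomputable section

namespace Pool.Agent.H40.BP

open IsLocalRing

namespace QPARaux

theorem mem_max {n : ℕ} {W : Type} [CommRing W] [IsLocalRing W] {f : MvPowerSeries (Fin n) W} :
    f ∈ maximalIdeal (MvPowerSeries (Fin n) W) ↔
      MvPowerSeries.constantCoeff f ∈ maximalIdeal W := by
  rw [mem_maximalIdeal, mem_nonunits_iff, mem_maximalIdeal, mem_nonunits_iff,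
    MvPowerSeries.isUnit_iff_constantCoeff]

theorem mem_span (W : Type) [CommRing W] : ∀ (n : ℕ) (f : MvPowerSeries (Fin n) W),
    MvPowerSeries.constantCoeff f = 0 →
      f ∈ Ideal.span (Set.range (MvPowerSeries.X : Fin n → MvPowerSeries (Fin n) W)) := by
  intro n
  induction n with
  | zero =>
    intro f hf
    have h0 : f = 0 := by
      ext ν
      have hν : ν = 0 := Subsingleton.elim _ _
      rw [hν, MvPowerSeries.coeff_zero_eq_constantCoeff, hf, map_zero]
    rw [h0]
    exact Ideal.zero_mem _
  | succ n ih =>
    intro f hf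
    obtain ⟨e, he⟩ : ∃ e : MvPowerSeries (Fin (n + 1)) W ≃+* PowerSeries (MvPowerSeries (Fin n) W),
        e = (MvPowerSeries.finSuccEquiv W n).toRingEquiv := ⟨_, rfl⟩
    have heX : e (MvPowerSeries.X 0) = PowerSeries.X := by
      rw [he]; exact MvPowerSeries.finSuccEquiv_X_zero
    have heS : ∀ j : Fin n, e (MvPowerSeries.X j.succ) = PowerSeries.C (MvPowerSeries.X j) := by
      intro j; rw [he]; exact MvPowerSeries.finSuccEquiv_X_succ j
    have hc : MvPowerSeries.constantCoeff (PowerSeries.constantCoeff (e f)) = 0 := by
      rw [← MvPowerSeries.coeff_zero_eq_constantCoeff_apply,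
        ← PowerSeries.coeff_zero_eq_constantCoeff_apply, he]
      show MvPowerSeries.coeff 0 (PowerSeries.coeff 0 (MvPowerSeries.finSuccEquiv W n f)) = 0
      rw [MvPowerSeries.coeff_coeff_finSuccEquiv, Finsupp.cons_zero_zero,
        MvPowerSeries.coeff_zero_eq_constantCoeff_apply, hf]
    have h1 := ih _ hc
    have h2 : (PowerSeries.X : PowerSeries (MvPowerSeries (Fin n) W)) ∣
        e f - PowerSeries.C (PowerSeries.constantCoeff (e f)) := by
      rw [PowerSeries.X_dvd_iff, map_sub, PowerSeries.constantCoeff_C, sub_self]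
    obtain ⟨g, hg⟩ := h2
    have h3 : f = e.symm (PowerSeries.C (PowerSeries.constantCoeff (e f))) +
        MvPowerSeries.X 0 * e.symm g := by
      apply e.injective
      rw [map_add, map_mul, RingEquiv.apply_symm_apply, RingEquiv.apply_symm_apply, heX, ← hg]
      ring
    have h4 : ∀ a ∈ Ideal.span (Set.range (MvPowerSeries.X : Fin n → MvPowerSeries (Fin n) W)),
        e.symm (PowerSeries.C a) ∈ Ideal.span
          (Set.range (MvPowerSeries.X : Fin (n + 1) → MvPowerSeries (Fin (n + 1)) W)) := by
      intro a ha
      have h5 : Ideal.span (Set.range (MvPowerSeries.X : Fin n → MvPowerSeries (Fin n) W)) ≤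
          Ideal.comap (e.symm.toRingHom.comp PowerSeries.C) (Ideal.span
            (Set.range (MvPowerSeries.X : Fin (n + 1) → MvPowerSeries (Fin (n + 1)) W))) := by
        rw [Ideal.span_le]
        rintro _ ⟨j, rfl⟩
        have h6 : e.symm (PowerSeries.C (MvPowerSeries.X j)) = MvPowerSeries.X j.succ := by
          rw [← heS, RingEquiv.symm_apply_apply]
        rw [SetLike.mem_coe, Ideal.mem_comap]
        show e.symm (PowerSeries.C (MvPowerSeries.X j)) ∈ Ideal.span
            (Set.range (MvPowerSeries.X : Fin (n + 1) → MvPowerSeries (Fin (n + 1)) W))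
        rw [h6]
        exact Ideal.subset_span ⟨_, rfl⟩
      exact h5 ha
    rw [h3]
    exact Ideal.add_mem _ (h4 _ h1) (Ideal.mul_mem_right _ _ (Ideal.subset_span ⟨0, rfl⟩))

theorem coeff_mem {n : ℕ} {W : Type} [CommRing W] [IsLocalRing W] (i : Fin n)
    {f : MvPowerSeries (Fin n) W} (hf : f ∈ maximalIdeal (MvPowerSeries (Fin n) W) ^ 2) :
    MvPowerSeries.coeff (Finsupp.single i 1) f ∈ maximalIdeal W := by
  rw [pow_two] at hf
  refine Submodule.mul_induction_on hf ?_ ?_
  · intro a ha b hb
    rw [mem_max, ← MvPowerSeries.coeff_zero_eq_constantCoeff_apply] at ha hb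
    rw [MvPowerSeries.coeff_mul]
    apply Ideal.sum_mem
    rintro ⟨p, q⟩ hpq
    rw [Finset.HasAntidiagonal.mem_antidiagonal] at hpq
    replace hpq : p + q = Finsupp.single i 1 := hpq
    by_cases h : p = 0
    · rw [h]
      exact Ideal.mul_mem_right _ _ ha
    · have hq : q = 0 := by
        obtain ⟨j, hj⟩ := Finsupp.ne_iff.1 h
        rw [Finsupp.zero_apply] at hj
        have e1 := DFunLike.congr_fun hpq
        simp only [Finsupp.add_apply] at e1
        have hji : j = i := by
          by_contra hne
          have := e1 j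
          rw [Finsupp.single_eq_of_ne hne] at this
          omega
        ext k
        have e2 := e1 k
        rw [Finsupp.zero_apply]
        by_cases hk : k = i
        · rw [hk, Finsupp.single_eq_same] at e2
          rw [hji] at hj
          rw [hk]
          omega
        · rw [Finsupp.single_eq_of_ne hk] at e2
          omega
      rw [hq]
      exact Ideal.mul_mem_left _ _ hb
  · intro a b ha hb
    rw [map_add]
    exact Ideal.add_mem _ ha hb

end QPARaux

open QPARaux in
theorem t_QPAR : S_QPAR := by
  intro n W _ _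
  refine ⟨?_, ?_, ?_⟩
  · intro u t hut
    apply le_antisymm
    · intro f hf
      rw [mem_max, hut, Ideal.mem_span_pair] at hf
      obtain ⟨a, b, hab⟩ := hf
      have h1 : f - MvPowerSeries.C (MvPowerSeries.constantCoeff f) ∈
          Ideal.span (Set.range (MvPowerSeries.X : Fin n → MvPowerSeries (Fin n) W)) := by
        apply mem_span
        rw [map_sub, MvPowerSeries.constantCoeff_C, sub_self]
      have h2 : f = (f - MvPowerSeries.C (MvPowerSeries.constantCoeff f)) +
          (MvPowerSeries.C a * MvPowerSeries.C u + MvPowerSeries.C b * MvPowerSeries.C t) := by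
        rw [← map_mul, ← map_mul, ← map_add, hab]
        ring
      rw [h2]
      refine Ideal.add_mem _ (Ideal.span_mono Set.subset_union_right h1)
        (Ideal.add_mem _ (Ideal.mul_mem_left _ _ (Ideal.subset_span ?_))
          (Ideal.mul_mem_left _ _ (Ideal.subset_span ?_)))
      · exact Or.inl (by simp)
      · exact Or.inl (by simp)
    · rw [Ideal.span_le]
      rintro z ((rfl | hz) | ⟨i, rfl⟩)
      · show _ ∈ maximalIdeal _
        rw [mem_max, MvPowerSeries.constantCoeff_C, hut]
        exact Ideal.subset_span (by simp)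
      · rw [Set.mem_singleton_iff] at hz
        show _ ∈ maximalIdeal _
        rw [hz, mem_max, MvPowerSeries.constantCoeff_C, hut]
        exact Ideal.subset_span (by simp)
      · show _ ∈ maximalIdeal _
        rw [mem_max, MvPowerSeries.constantCoeff_X]
        exact Ideal.zero_mem _
  · intro i
    refine ⟨?_, ?_⟩
    · rw [mem_max, MvPowerSeries.constantCoeff_X]
      exact Ideal.zero_mem _
    · intro h
      have h1 := coeff_mem i h
      rw [MvPowerSeries.coeff_index_single_self_X] at h1
      exact (Ideal.ne_top_iff_one _).1 (maximalIdeal.isMaximal W).ne_top h1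
  · intro u hu hu2
    refine ⟨?_, ?_⟩
    · rw [mem_max, MvPowerSeries.constantCoeff_C]
      exact hu
    · intro h
      apply hu2
      have h1 : maximalIdeal (MvPowerSeries (Fin n) W) ≤
          Ideal.comap (MvPowerSeries.constantCoeff : MvPowerSeries (Fin n) W →+* W)
            (maximalIdeal W) := fun f hf => mem_max.1 hf
      have h2 : maximalIdeal (MvPowerSeries (Fin n) W) ^ 2 ≤
          Ideal.comap (MvPowerSeries.constantCoeff : MvPowerSeries (Fin n) W →+* W)
            (maximalIdeal W ^ 2) :=
        (Ideal.pow_right_mono h1 2).trans (Ideal.le_comap_pow _ 2)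
      have h3 := h2 h
      rw [Ideal.mem_comap, MvPowerSeries.constantCoeff_C] at h3
      exact h3

end Pool.Agent.H40.BP
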