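import Pool.Agent.H40.BP.Stm3

/-!
# Quillen's question for `W[[X_0,...,X_n]]`, `W` a complete regular local ring of dimension
two: statements of the parts
-/

set_option autoImplicit false

open Polynomial

noncomputable section

namespace Pool.Agent.H40.BP

open BQ IsLocalRing Pool.Agent.W394.BQN

/-- AWAYQ: `B[z]/(sz-1)` is the localisation `B[1/s]` -/
def S_AWAYQ : Prop := ∀ (B : Type) [CommRing B] (s : B),
  ∃ e : QF (rel 1 s 1) ≃+* Localization.Away s,
    ∀ b : B, e (qm (rel 1 s 1) (MvPolynomial.C b)) = algebraMap B (Localization.Away s) b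

/-- LAU2: Laurent polynomials over `L` -/
def S_LAU2 : Prop := ∀ (L : Type) [CommRing L] [IsDomain L] [IsLocalRing L] [IsNoetherianRing L]
  (u t : L), maximalIdeal L = Ideal.span {u, t} → Prime u → AF (QF (rel 2 (1 : L) 1))

/-- LOCS: `L[1/(uc)]` and the Laurent polynomials over this ring -/
def S_LOCS : Prop := ∀ (L : Type) [CommRing L] [IsDomain L] [IsLocalRing L] [IsNoetherianRing L]
  (u t : L), maximalIdeal L = Ideal.span {u, t} → Prime u → ∀ c : L, c ≠ 0 →
    AF (QF (rel 1 (u * c) 1)) ∧ AF (QF (rel 2 (u * c) 1))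

/-- STEPQ: `S_STEP` for all relations -/
def S_STEPQ : Prop := ∀ (W : Type) [CommRing W] [IsLocalRing W] [IsNoetherianRing W]
  [IsAdicComplete (maximalIdeal W) W] (r l : ℕ) (F : MvPolynomial (Fin l) W[X]),
  IsDomain (QF (MvPolynomial.map (im r W) F)) → IsDomain (QF (MvPolynomial.map (ip r W) F)) →
  (∀ f : MvPowerSeries (Fin (r + 1)) W, UC f →
    qm (MvPolynomial.map (ip r W) F) (MvPolynomial.C f) ≠ 0) →
  AF (QF (MvPolynomial.map (im r W) F)) →
  ∀ (Ω : Type) [CommRing Ω] (φ : QF (MvPolynomial.map (ip r W) F) →+* Ω),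
    Function.Injective φ →
    (∀ ω : Ω, ∃ f : MvPowerSeries (Fin (r + 1)) W, UC f ∧
      ∃ a, φ (qm (MvPolynomial.map (ip r W) F) (MvPolynomial.C f)) * ω = φ a) →
    AF Ω → AF (QF (MvPolynomial.map (ip r W) F))

/-- QPAR: the maximal ideal of `W[[X_0,...,X_(n-1)]]` -/
def S_QPAR : Prop := ∀ (n : ℕ) (W : Type) [CommRing W] [IsLocalRing W],
  (∀ u t : W, maximalIdeal W = Ideal.span {u, t} →
    maximalIdeal (MvPowerSeries (Fin n) W) =
      Ideal.span ({MvPowerSeries.C u, MvPowerSeries.C t} ∪ Set.range MvPowerSeries.X)) ∧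
  (∀ i : Fin n, (MvPowerSeries.X i : MvPowerSeries (Fin n) W) ∈ maximalIdeal _ ∧
    (MvPowerSeries.X i : MvPowerSeries (Fin n) W) ∉ maximalIdeal (MvPowerSeries (Fin n) W) ^ 2) ∧
  (∀ u : W, u ∈ maximalIdeal W → u ∉ maximalIdeal W ^ 2 →
    (MvPowerSeries.C u : MvPowerSeries (Fin n) W) ∈ maximalIdeal _ ∧
    (MvPowerSeries.C u : MvPowerSeries (Fin n) W) ∉ maximalIdeal (MvPowerSeries (Fin n) W) ^ 2)

end Pool.Agent.H40.BP
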