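import Pool.Agent.H40.BP.STEP
import Pool.Agent.H40.BP.Stm4

/-!
# STEP for all relations
-/

set_option autoImplicit false

open Polynomial

noncomputable section

namespace Pool.Agent.H40.BP

open BQ IsLocalRing

open STEP

/-- from a splitting up to a denominator to a splitting -/
theorem mainQ (h1 : S_AUTC) (h2 : S_WEI) (h3 : S_TR) (h4 : S_QUOT) (h5 : S_PATCH) (h6 : S_CPL)
    {W : Type} [CommRing W] [IsLocalRing W] [IsNoetherianRing W]
    [IsAdicComplete (maximalIdeal W) W] (r l : ℕ) (F : MvPolynomial (Fin l) W[X])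
    (Fp : MvPolynomial (Fin l) (MvPowerSeries (Fin (r + 1)) W))
    (hFp : MvPolynomial.map (ip r W) F = Fp)
    (hDm : IsDomain (QF (MvPolynomial.map (im r W) F))) (hDp : IsDomain (QF Fp))
    (hne : ∀ f : MvPowerSeries (Fin (r + 1)) W, UC f → qm Fp (MvPolynomial.C f) ≠ 0)
    (hAF : AF (QF (MvPolynomial.map (im r W) F))) (m n : ℕ)
    (E : Matrix (Fin n) (Fin n) (MvPolynomial (Fin m) (QF Fp))) (hE : E * E = E)
    (f : MvPowerSeries (Fin (r + 1)) W) (hf : UC f)
    (hsE : SplitAt (MvPolynomial.C (qm Fp (MvPolynomial.C f))) E) : Split E := by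
  -- the automorphism
  obtain ⟨σ, k, hk, hσC, hσX⟩ := h1 r W f hf
  have hσip : (σ : MvPowerSeries (Fin (r + 1)) W →+* MvPowerSeries (Fin (r + 1)) W).comp
      (ip r W) = ip r W := by
    apply Polynomial.ringHom_ext
    · intro a
      simp [ip, hσC]
    · simp [ip, hσX]
  have hσF : MvPolynomial.map
      (σ : MvPowerSeries (Fin (r + 1)) W →+* MvPowerSeries (Fin (r + 1)) W)
      Fp = Fp := by
    rw [← hFp, MvPolynomial.map_map, hσip]
  have hI : Ideal.span {Fp} = Ideal.map
      ((MvPolynomial.mapEquiv (Fin l) σ : MvPolynomial (Fin l) (MvPowerSeries (Fin (r + 1)) W) ≃+*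
        MvPolynomial (Fin l) (MvPowerSeries (Fin (r + 1)) W)) :
        MvPolynomial (Fin l) (MvPowerSeries (Fin (r + 1)) W) →+*
        MvPolynomial (Fin l) (MvPowerSeries (Fin (r + 1)) W)) (Ideal.span {Fp}) := by
    rw [Ideal.map_span, Set.image_singleton]
    congr 2
    exact hσF.symm
  let σ'' : QF Fp ≃+* QF Fp := Ideal.quotientEquiv _ _ (MvPolynomial.mapEquiv (Fin l) σ) hI
  have hσ'' : ∀ p : MvPowerSeries (Fin (r + 1)) W,
      σ'' (qm Fp (MvPolynomial.C p)) = qm Fp (MvPolynomial.C (σ p)) := by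
    intro p
    show Ideal.quotientEquiv _ _ _ hI (Ideal.Quotient.mk _ _) = _
    rw [Ideal.quotientEquiv_mk]
    congr 1
    rw [MvPolynomial.mapEquiv_apply, MvPolynomial.map_C]
    rfl
  refine of_mapEquiv σ'' m n E _ hE hsE fun E1 hE1 hs1 => ?_
  rw [hσ''] at hs1
  -- Weierstrass preparation
  have hcpl := h6 r W
  set e0 : MvPowerSeries (Fin (r + 1)) W ≃+* PowerSeries (MvPowerSeries (Fin r) W) :=
    (MvPowerSeries.finSuccEquiv W r).toRingEquiv with he0
  have hcoe : IsUnit (PowerSeries.coeff k (e0 (σ f))) := by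
    rw [MvPowerSeries.isUnit_iff_constantCoeff]
    have h1 : MvPowerSeries.coeff 0 (PowerSeries.coeff k
        (MvPowerSeries.finSuccEquiv W r (σ f))) =
        MvPowerSeries.coeff ((0 : Fin r →₀ ℕ).cons k) (σ f) :=
      MvPowerSeries.coeff_coeff_finSuccEquiv _
    have h2 : (0 : Fin r →₀ ℕ).cons k = Finsupp.single 0 k := by
      ext i
      refine Fin.cases ?_ (fun j => ?_) i
      · simp
      · simp
    rw [h2] at h1
    rw [← h1] at hk
    rw [MvPowerSeries.coeff_zero_eq_constantCoeff_apply] at hk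
    exact hk
  obtain ⟨g, u, hu, hfg, -, -, hpat⟩ := h2 (MvPowerSeries (Fin r) W) (e0 (σ f)) ⟨k, hcoe⟩
  set ι0 : (MvPowerSeries (Fin r) W)[X] →+* MvPowerSeries (Fin (r + 1)) W :=
    (e0.symm : PowerSeries (MvPowerSeries (Fin r) W) →+* MvPowerSeries (Fin (r + 1)) W).comp
      Polynomial.coeToPowerSeries.ringHom with hι0
  have hpat0 : AnPatch ι0 g := patch_equiv hpat e0.symm
  have hι0im : ι0.comp (im r W) = ip r W := by
    apply Polynomial.ringHom_ext
    · intro a
      rw [RingHom.comp_apply]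
      apply e0.injective
      rw [hι0, RingHom.comp_apply]
      show e0 (e0.symm _) = _
      rw [e0.apply_symm_apply]
      simp only [im, ip, coe_mapRingHom, Polynomial.map_C, coe_eval₂RingHom, eval₂_C]
      rw [he0]
      show ((Polynomial.C (MvPowerSeries.C a) : (MvPowerSeries (Fin r) W)[X]) :
        PowerSeries (MvPowerSeries (Fin r) W)) = MvPowerSeries.finSuccEquiv W r (MvPowerSeries.C a)
      rw [MvPowerSeries.finSuccEquiv_C, Polynomial.coe_C]
    · rw [RingHom.comp_apply]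
      apply e0.injective
      rw [hι0, RingHom.comp_apply]
      show e0 (e0.symm _) = _
      rw [e0.apply_symm_apply]
      simp only [im, ip, coe_mapRingHom, Polynomial.map_X, coe_eval₂RingHom, eval₂_X]
      rw [he0]
      show ((Polynomial.X : (MvPowerSeries (Fin r) W)[X]) :
        PowerSeries (MvPowerSeries (Fin r) W)) = MvPowerSeries.finSuccEquiv W r (MvPowerSeries.X 0)
      rw [MvPowerSeries.finSuccEquiv_X_zero, Polynomial.coe_X]
  have hσfg : σ f = ι0 g * e0.symm u := by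
    apply e0.injective
    rw [map_mul, e0.apply_symm_apply, hι0, RingHom.comp_apply]
    show _ = e0 (e0.symm _) * u
    rw [e0.apply_symm_apply]
    exact hfg
  have hu' : IsUnit (e0.symm u) := hu.map e0.symm
  have hmap : MvPolynomial.map ι0 (MvPolynomial.map (im r W) F) = Fp := by
    rw [MvPolynomial.map_map, hι0im, hFp]
  have hprod : qm Fp (MvPolynomial.C (σ f)) =
      qm Fp (MvPolynomial.C (ι0 g)) * qm Fp (MvPolynomial.C (e0.symm u)) := by
    rw [← map_mul, ← MvPolynomial.C_mul, ← hσfg]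
  have hne0 : qm Fp (MvPolynomial.C (ι0 g)) ≠ 0 := by
    intro h0
    apply hne (σ f) ⟨Finsupp.single 0 k, hk⟩
    rw [hprod, h0, zero_mul]
  have hs2 : SplitAt (MvPolynomial.C (qm Fp (MvPolynomial.C (ι0 g)))) E1 := by
    apply SplitAt.of_mul (u := MvPolynomial.C (qm Fp (MvPolynomial.C (e0.symm u))))
      (((hu'.map MvPolynomial.C).map (qm Fp)).map MvPolynomial.C)
    rw [← MvPolynomial.C_mul, ← hprod]
    exact hs1
  by_cases hgu : IsUnit (qm (MvPolynomial.map (im r W) F) (MvPolynomial.C g))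
  · -- the denominator is a unit
    have hle : Ideal.span {MvPolynomial.map (im r W) F} ≤
        Ideal.comap (MvPolynomial.map ι0) (Ideal.span {Fp}) := by
      rw [Ideal.span_singleton_le_iff_mem, Ideal.mem_comap, hmap]
      exact Ideal.mem_span_singleton_self Fp
    have hgu' := hgu.map (Ideal.quotientMap (Ideal.span {Fp}) (MvPolynomial.map ι0) hle)
    have e9 : Ideal.quotientMap (Ideal.span {Fp}) (MvPolynomial.map ι0) hle
        (qm (MvPolynomial.map (im r W) F) (MvPolynomial.C g)) =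
        qm Fp (MvPolynomial.C (ι0 g)) := by
      rw [qm, Ideal.quotientMap_mk, MvPolynomial.map_C]
    rw [e9] at hgu'
    exact hs2.split (hgu'.map MvPolynomial.C)
  exact core h3 h4 h5 ι0 g hpat0 l (MvPolynomial.map (im r W) F) Fp hmap hDm hDp
    hgu hne0 hAF m n _ hE1 hs2


theorem t_STEPQ (h1 : S_AUTC) (h2 : S_WEI) (h3 : S_TR) (h4 : S_QUOT) (h5 : S_PATCH)
    (h6 : S_CPL) : S_STEPQ := by
  intro W _ _ _ _ r l F hDm hDp hne hAF Ω _ φ hφ hfrac hΩ m n E hE
  -- splitting over the localisation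
  let M : Submonoid (QF (MvPolynomial.map (ip r W) F)) :=
    { carrier := {z | ∃ f : MvPowerSeries (Fin (r + 1)) W, UC f ∧
        z = qm (MvPolynomial.map (ip r W) F) (MvPolynomial.C f)}
      one_mem' := ⟨1, uc_one, by rw [MvPolynomial.C_1, map_one]⟩
      mul_mem' := by
        rintro a b ⟨f, hf, rfl⟩ ⟨g, hg, rfl⟩
        exact ⟨f * g, uc_mul hf hg, by rw [MvPolynomial.C_mul, map_mul]⟩ }
  have hs := hΩ m n (E.map (MvPolynomial.map φ : MvPolynomial (Fin m)
    (QF (MvPolynomial.map (ip r W) F)) →+* MvPolynomial (Fin m) Ω)) (map_idem hE _)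
  obtain ⟨s, ⟨f, hf, hsf⟩, hsE⟩ := splitAt_of_loc φ hφ M (by
    intro z
    obtain ⟨f, hf, a, ha⟩ := hfrac z
    exact ⟨_, ⟨f, hf, rfl⟩, a, ha⟩) m E hs
  subst hsf
  exact mainQ h1 h2 h3 h4 h5 h6 r l F _ rfl hDm hDp hne hAF m n E hE f hf hsE

end Pool.Agent.H40.BP
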