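import Pool.Agent.H40.BP.Asm3
import Pool.Agent.H40.BP.QSTEP
import Pool.Agent.H40.BP.QMAIN
import Pool.Agent.H40.BP.AWAYQ
import Pool.Agent.H40.BP.QPAR
import Pool.Agent.H40.BP.LOCS
import Pool.Agent.H40.BP.LAU2

/-!
# Assembly: Quillen's question for `W[[X_0,...,X_n]]`
-/

set_option autoImplicit false

open Polynomial TensorProduct

noncomputable section

namespace Pool.Agent.H40.BP

open BQ Pool.Agent.W394.BQN IsLocalRing

theorem c_STEPQ : S_STEPQ := t_STEPQ t_AUTC t_WEI t_TR t_QUOT t_PATCH t_CPL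

theorem c_LOCS : S_LOCS := t_LOCS t_L2 (t_LOCPID c_IND t_E2L) t_AWAYQ t_POLR

theorem c_LAU2 : S_LAU2 := t_LAU2 c_BQ2 c_VVL

/-- `W[[X_0,...,X_(n-1)]][1/s]` -/
theorem c_awayC (W : Type) [CommRing W] [IsDomain W] [IsLocalRing W] [IsNoetherianRing W]
    [IsAdicComplete (maximalIdeal W) W] (u t : W) (hut : maximalIdeal W = Ideal.span {u, t})
    (hu : Prime u) (s : W) (hs : GoodS u s) (r : ℕ) :
    AF (Localization.Away (MvPowerSeries.C s : MvPowerSeries (Fin r) W)) :=
  awayC c_STEPQ t_L1 t_BC t_POLF t_POLR c_BQ2 t_UN t_AWAYQ c_LAU2 c_LOCS W u t hut hu s hs r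

/-- `W[[X_0,...,X_r]][1/(s X_0)]` -/
theorem c_awayCX (W : Type) [CommRing W] [IsDomain W] [IsLocalRing W] [IsNoetherianRing W]
    [IsAdicComplete (maximalIdeal W) W] (u t : W) (hut : maximalIdeal W = Ideal.span {u, t})
    (hu : Prime u) (s : W) (hs : GoodS u s) (r : ℕ) :
    AF (Localization.Away (MvPowerSeries.C s * MvPowerSeries.X 0 :
      MvPowerSeries (Fin (r + 1)) W)) :=
  awayCX c_STEPQ t_L1 t_BC t_POLF t_POLR c_BQ2 t_UN t_AWAYQ c_LAU2 c_LOCS W u t hut hu s hs r

/-- transport of a localisation -/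
theorem AF.away {R R' : Type} [CommRing R] [CommRing R'] (e : R ≃+* R') (s : R)
    (h : AF (Localization.Away s)) : AF (Localization.Away (e s)) := by
  refine AF.of_equiv (IsLocalization.ringEquivOfRingEquiv (M := Submonoid.powers s)
    (T := Submonoid.powers (e s)) (Localization.Away s) (Localization.Away (e s)) e ?_) h
  exact Submonoid.map_powers _ s

/-- permutation of the variables -/
theorem c_awayCX' (W : Type) [CommRing W] [IsDomain W] [IsLocalRing W] [IsNoetherianRing W]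
    [IsAdicComplete (maximalIdeal W) W] (u t : W) (hut : maximalIdeal W = Ideal.span {u, t})
    (hu : Prime u) (s : W) (hs : GoodS u s) (r : ℕ) (i : Fin r) :
    AF (Localization.Away (MvPowerSeries.C s * MvPowerSeries.X i :
      MvPowerSeries (Fin r) W)) := by
  obtain ⟨r, rfl⟩ : ∃ k, r = k + 1 := ⟨r - 1, by have := i.2; omega⟩
  have h1 := AF.away (MvPowerSeries.renameEquiv (R := W)
    (Equiv.swap (0 : Fin (r + 1)) i)).toRingEquiv _ (c_awayCX W u t hut hu s hs r)
  have h2 : (MvPowerSeries.renameEquiv (R := W) (Equiv.swap (0 : Fin (r + 1)) i)).toRingEquiv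
      (MvPowerSeries.C s * MvPowerSeries.X 0) = MvPowerSeries.C s * MvPowerSeries.X i := by
    show (MvPowerSeries.renameEquiv (R := W) (Equiv.swap (0 : Fin (r + 1)) i))
      (MvPowerSeries.C s * MvPowerSeries.X 0) = _
    rw [map_mul]
    congr 1
    · exact MvPowerSeries.rename_C _ s
    · refine (MvPowerSeries.rename_X _ 0).trans ?_
      rw [Equiv.swap_apply_left]
  rwa [h2] at h1

end Pool.Agent.H40.BP
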