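import Pool.Agent.H40.BP.Stm5
import Pool.Agent.H40.BP.STEP
import Pool.Agent.H40.BP.QMAIN

/-!
# Quillen's question for `W[[X_0,...,X_n]]`: general parameters
-/

set_option autoImplicit false

open Polynomial

noncomputable section

namespace Pool.Agent.H40.BP

open BQ IsLocalRing Pool.Agent.W394.BQN

namespace GP

open STEP

/-- transport by an isomorphism of the rings of coefficients -/
theorem of_mapEquiv' {R S : Type} [CommRing R] [CommRing S] (σ : R ≃+* S) (m n : ℕ)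
    (E : Matrix (Fin n) (Fin n) (MvPolynomial (Fin m) R)) (s : R) (hE : E * E = E)
    (h : SplitAt (MvPolynomial.C s) E)
    (H : ∀ E1 : Matrix (Fin n) (Fin n) (MvPolynomial (Fin m) S), E1 * E1 = E1 →
      SplitAt (MvPolynomial.C (σ s)) E1 → Split E1) : Split E := by
  apply Split.of_equiv (MvPolynomial.mapEquiv (Fin m) σ)
  apply H _ (map_idem hE _)
  have h1 := h.map ((MvPolynomial.mapEquiv (Fin m) σ : MvPolynomial (Fin m) R ≃+*
    MvPolynomial (Fin m) S) : MvPolynomial (Fin m) R →+* MvPolynomial (Fin m) S)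
  have e1 : ((MvPolynomial.mapEquiv (Fin m) σ : MvPolynomial (Fin m) R ≃+*
      MvPolynomial (Fin m) S) : MvPolynomial (Fin m) R →+* MvPolynomial (Fin m) S)
      (MvPolynomial.C s) = MvPolynomial.C (σ s) := by
    show MvPolynomial.mapEquiv (Fin m) σ (MvPolynomial.C s) = _
    rw [MvPolynomial.mapEquiv_apply, MvPolynomial.map_C]
    rfl
  rwa [e1] at h1

/-- associated elements -/
theorem assoc (hA : S_AWAYQ) {R : Type} [CommRing R] (a a' v : R) (hv : IsUnit v)
    (h : a = a' * v) : ∃ θ : QF (rel 1 a 1) ≃+* QF (rel 1 a' 1),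
      ∀ p : R, θ (qm (rel 1 a 1) (MvPolynomial.C p)) = qm (rel 1 a' 1) (MvPolynomial.C p) := by
  obtain ⟨e, he⟩ := hA R a
  obtain ⟨e', he'⟩ := hA R a'
  have hass : Associated a' a := by
    obtain ⟨w, rfl⟩ := hv
    exact ⟨w, h.symm⟩
  have hloc : IsLocalization.Away a (Localization.Away a') :=
    (IsLocalization.Away.iff_of_associated hass).1 inferInstance
  let ε : Localization.Away a ≃ₐ[R] Localization.Away a' :=
    IsLocalization.algEquiv (Submonoid.powers a) (Localization.Away a) (Localization.Away a')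
  refine ⟨(e.trans ε.toRingEquiv).trans e'.symm, fun p => ?_⟩
  show e'.symm (ε (e (qm (rel 1 a 1) (MvPolynomial.C p)))) = _
  rw [he, ε.commutes, ← he', e'.symm_apply_apply]

/-- `UC` of a power series with a unit linear coefficient -/
theorem uc_of_lin {W : Type} [CommRing W] {n : ℕ} {f : MvPowerSeries (Fin (n + 1)) W}
    (h : IsUnit (MvPowerSeries.coeff (Finsupp.single 0 1) f)) : UC f := ⟨_, h⟩

theorem coe_X_sub_C {B : Type} [CommRing B] (b : B) :
    ((X - C b : B[X]) : PowerSeries B) = PowerSeries.X - PowerSeries.C b := by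
  rw [Polynomial.coe_sub, Polynomial.coe_X, Polynomial.coe_C]

end GP

open STEP GP

theorem gp_main (h1 : S_AUTD) (h2 : S_WEI) (h2' : S_WEI1) (h3 : S_TR) (h4 : S_QUOT)
    (h5 : S_PATCH) (h6 : S_CPL) (hL1 : S_L1) (hBC : S_BC) (hPOLR : S_POLR)
    (hBQ2 : S_BQ2) (hUN : S_UN) (hA : S_AWAYQ) (hLAU2 : S_LAU2) (hLOCS : S_LOCS)
    (hq0 : ∀ (W : Type) [CommRing W] [IsDomain W] [IsLocalRing W] [IsNoetherianRing W]
      [IsAdicComplete (maximalIdeal W) W] (u t : W), maximalIdeal W = Ideal.span {u, t} →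
      Prime u → ∀ s : W, GoodS u s → ∀ r : ℕ,
        AF (QF (rel 2 (MvPowerSeries.C s : MvPowerSeries (Fin r) W) 1)))
    (W : Type) [CommRing W] [IsDomain W] [IsLocalRing W] [IsNoetherianRing W]
    [IsAdicComplete (maximalIdeal W) W] (u t : W) (hut : maximalIdeal W = Ideal.span {u, t})
    (hu : Prime u) (s : W) (hs : GoodS u s) (r : ℕ) (f0 : MvPowerSeries (Fin (r + 1)) W)
    (hf0 : MvPowerSeries.constantCoeff f0 ∈ maximalIdeal W)
    (hf1 : IsUnit (MvPowerSeries.coeff (Finsupp.single 0 1) f0)) :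
    AF (QF (rel 1 (MvPowerSeries.C s * f0) 1)) := by
  have hs0 : s ≠ 0 := hs.ne_zero hu.ne_zero
  have hCs0 : ∀ n : ℕ, (MvPowerSeries.C s : MvPowerSeries (Fin n) W) ≠ 0 := by
    intro n h
    have h1 := congrArg MvPowerSeries.constantCoeff h
    rw [MvPowerSeries.constantCoeff_C, map_zero] at h1
    exact hs0 h1
  have hB : IsDomain (MvPowerSeries (Fin r) W) := NoZeroDivisors.to_isDomain _
  have hB' : IsDomain (MvPowerSeries (Fin (r + 1)) W) := NoZeroDivisors.to_isDomain _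
  obtain ⟨L, _, _, _, _, φ, hφ, hfrac, hunit, hmax, hprL⟩ := hL1 W u t hut hu (r + 1)
  have hD := domQ1 hA _ (MvPowerSeries.C s * f0)
    (mul_ne_zero (hCs0 (r + 1)) (uc_of_lin hf1).ne_zero)
  obtain ⟨ψ, hψ, hψf⟩ := hBC (MvPowerSeries (Fin (r + 1)) W) L φ hφ (ucS W (r + 1))
    (fun z => by
      obtain ⟨f, hf, b, hb⟩ := hfrac z
      exact ⟨f, mem_ucS.2 hf, b, hb⟩) 1 (rel 1 (MvPowerSeries.C s * f0) 1) hD.1
    (fun f hf h0 => (mem_ucS.1 hf).ne_zero (hD.2 f h0))
  have hΩ : AF (QF (MvPolynomial.map φ (rel 1 (MvPowerSeries.C s * f0) 1))) := by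
    rw [map_rel, map_one, map_mul]
    have hvu : IsUnit (φ f0) := hunit _ (uc_of_lin hf1)
    rcases hs with rfl | ⟨c, hc, rfl⟩
    · rw [map_one, map_one, one_mul]
      obtain ⟨e⟩ := hUN L (φ f0) 1 hvu
      exact AF.of_equiv e.symm (hBQ2 L _ _ hmax hprL)
    · have h1 : φ (MvPowerSeries.C c) ≠ 0 := by
        intro h0
        apply hc
        have h1 : (MvPowerSeries.C c : MvPowerSeries (Fin (r + 1)) W) = 0 :=
          hφ (by rw [h0, map_zero])
        have h2 := congrArg MvPowerSeries.constantCoeff h1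
        rwa [MvPowerSeries.constantCoeff_C, map_zero] at h2
      have h2 := (hLOCS L _ _ hmax hprL (φ (MvPowerSeries.C c) * φ f0)
        (mul_ne_zero h1 hvu.ne_zero)).1
      have e1 : φ (MvPowerSeries.C (u * c)) * φ f0 =
          φ (MvPowerSeries.C u) * (φ (MvPowerSeries.C c) * φ f0) := by
        rw [map_mul, map_mul, mul_assoc]
      rw [e1]
      exact h2
  intro m n E hE
  -- splitting over the localisation
  let M : Submonoid (QF (rel 1 (MvPowerSeries.C s * f0) 1)) :=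
    { carrier := {z | ∃ f : MvPowerSeries (Fin (r + 1)) W, UC f ∧
        z = qm (rel 1 (MvPowerSeries.C s * f0) 1) (MvPolynomial.C f)}
      one_mem' := ⟨1, uc_one, by rw [MvPolynomial.C_1, map_one]⟩
      mul_mem' := by
        rintro a b ⟨f, hf, rfl⟩ ⟨g, hg, rfl⟩
        exact ⟨f * g, uc_mul hf hg, by rw [MvPolynomial.C_mul, map_mul]⟩ }
  have hsp := hΩ m n (E.map (MvPolynomial.map ψ)) (map_idem hE _)
  obtain ⟨z, ⟨f, hf, hzf⟩, hsE⟩ := splitAt_of_loc ψ hψ M (by
    intro ω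
    obtain ⟨f, hf, a, ha⟩ := hψf ω
    exact ⟨_, ⟨f, mem_ucS.1 hf, rfl⟩, a, ha⟩) m E hsp
  subst hzf
  -- the automorphism
  obtain ⟨σ, k, hk, hσC, hσ0, hσ1⟩ := h1 r W f hf
  let Θ1 : QF (rel 1 (MvPowerSeries.C s * f0) 1) ≃+*
      QF (rel 1 (MvPowerSeries.C s * σ f0) 1) :=
    qfEquiv σ _ _ (by
      rw [map_rel, map_one]
      congr 1
      show σ (MvPowerSeries.C s * f0) = _
      rw [map_mul, hσC])
  have hΘ1 : ∀ p, Θ1 (qm _ (MvPolynomial.C p)) = qm _ (MvPolynomial.C (σ p)) := by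
    intro p
    show Ideal.quotientEquiv _ _ _ _ (Ideal.Quotient.mk _ _) = _
    rw [Ideal.quotientEquiv_mk]
    congr 1
    rw [MvPolynomial.mapEquiv_apply, MvPolynomial.map_C]
    rfl
  refine of_mapEquiv' Θ1 m n E _ hE hsE fun E1 hE1 hs1 => ?_
  rw [hΘ1] at hs1
  -- Weierstrass preparation
  have hcpl := h6 r W
  set e0 : MvPowerSeries (Fin (r + 1)) W ≃+* PowerSeries (MvPowerSeries (Fin r) W) :=
    (MvPowerSeries.finSuccEquiv W r).toRingEquiv with he0
  have hcoeff : ∀ (j : ℕ) (p : MvPowerSeries (Fin (r + 1)) W),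
      MvPowerSeries.constantCoeff (PowerSeries.coeff j (e0 p)) =
        MvPowerSeries.coeff (Finsupp.single 0 j) p := by
    intro j p
    have h1 : MvPowerSeries.coeff 0 (PowerSeries.coeff j
        (MvPowerSeries.finSuccEquiv W r p)) =
        MvPowerSeries.coeff ((0 : Fin r →₀ ℕ).cons j) p :=
      MvPowerSeries.coeff_coeff_finSuccEquiv _
    have h2 : (0 : Fin r →₀ ℕ).cons j = Finsupp.single 0 j := by
      ext i
      refine Fin.cases ?_ (fun j => ?_) i
      · simp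
      · simp
    rw [h2, MvPowerSeries.coeff_zero_eq_constantCoeff_apply] at h1
    exact h1
  have hcoe : IsUnit (PowerSeries.coeff k (e0 (σ f))) := by
    rw [MvPowerSeries.isUnit_iff_constantCoeff, hcoeff]
    exact hk
  obtain ⟨g, w, hw, hfg, -, -, hpat⟩ := h2 (MvPowerSeries (Fin r) W) (e0 (σ f)) ⟨k, hcoe⟩
  have hF0 : PowerSeries.constantCoeff (e0 (σ f0)) ∈ maximalIdeal (MvPowerSeries (Fin r) W) := by
    rw [mem_maximalIdeal, mem_nonunits_iff, ← PowerSeries.coeff_zero_eq_constantCoeff_apply,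
      MvPowerSeries.isUnit_iff_constantCoeff, hcoeff, Finsupp.single_zero,
      MvPowerSeries.coeff_zero_eq_constantCoeff_apply, hσ0]
    exact hf0
  have hF1 : IsUnit (PowerSeries.coeff 1 (e0 (σ f0))) := by
    rw [MvPowerSeries.isUnit_iff_constantCoeff, hcoeff, hσ1]
    exact hf1
  obtain ⟨b, hb, v, hv, hbv⟩ := h2' (MvPowerSeries (Fin r) W) (e0 (σ f0)) hF0 hF1
  set ι0 : (MvPowerSeries (Fin r) W)[X] →+* MvPowerSeries (Fin (r + 1)) W :=
    (e0.symm : PowerSeries (MvPowerSeries (Fin r) W) →+* MvPowerSeries (Fin (r + 1)) W).comp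
      Polynomial.coeToPowerSeries.ringHom with hι0
  have hpat0 : AnPatch ι0 g := patch_equiv hpat e0.symm
  have hι0C : ∀ a : W, ι0 (Polynomial.C (MvPowerSeries.C a)) = MvPowerSeries.C a := by
    intro a
    apply e0.injective
    rw [hι0, RingHom.comp_apply]
    show e0 (e0.symm _) = _
    rw [e0.apply_symm_apply, he0]
    show ((Polynomial.C (MvPowerSeries.C a) : (MvPowerSeries (Fin r) W)[X]) :
      PowerSeries (MvPowerSeries (Fin r) W)) = MvPowerSeries.finSuccEquiv W r (MvPowerSeries.C a)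
    rw [MvPowerSeries.finSuccEquiv_C, Polynomial.coe_C]
  have hσfg : σ f = ι0 g * e0.symm w := by
    apply e0.injective
    rw [map_mul, e0.apply_symm_apply, hι0, RingHom.comp_apply]
    show _ = e0 (e0.symm _) * w
    rw [e0.apply_symm_apply]
    exact hfg
  have hσf0 : σ f0 = ι0 (X - Polynomial.C b) * e0.symm v := by
    apply e0.injective
    rw [map_mul, e0.apply_symm_apply, hι0, RingHom.comp_apply]
    show _ = e0 (e0.symm _) * v
    rw [e0.apply_symm_apply, hbv]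
    congr 1
    exact (coe_X_sub_C b).symm
  have hw' : IsUnit (e0.symm w) := hw.map e0.symm
  have hv' : IsUnit (e0.symm v) := hv.map e0.symm
  -- change of the parameter by a unit
  obtain ⟨Fm, hFm⟩ : ∃ F : MvPolynomial (Fin 1) (MvPowerSeries (Fin r) W)[X],
    F = rel 1 (Polynomial.C (MvPowerSeries.C s) * (X - Polynomial.C b)) 1 := ⟨_, rfl⟩
  obtain ⟨Fp, hFp⟩ : ∃ F : MvPolynomial (Fin 1) (MvPowerSeries (Fin (r + 1)) W),
    F = rel 1 (MvPowerSeries.C s * ι0 (X - Polynomial.C b)) 1 := ⟨_, rfl⟩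
  obtain ⟨Θ2, hΘ2⟩ : ∃ θ : QF (rel 1 (MvPowerSeries.C s * σ f0) 1) ≃+* QF Fp,
      ∀ p, θ (qm (rel 1 (MvPowerSeries.C s * σ f0) 1) (MvPolynomial.C p)) =
        qm Fp (MvPolynomial.C p) := by
    rw [hFp]
    exact assoc hA (MvPowerSeries.C s * σ f0)
      (MvPowerSeries.C s * ι0 (X - Polynomial.C b)) (e0.symm v) hv' (by rw [hσf0, mul_assoc])
  refine of_mapEquiv' Θ2 m n E1 _ hE1 hs1 fun E2 hE2 hs2 => ?_
  rw [hΘ2] at hs2
  have hmap : MvPolynomial.map ι0 Fm = Fp := by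
    rw [hFm, hFp, map_rel, map_mul, map_one, hι0C]
  have hXb : (X - Polynomial.C b : (MvPowerSeries (Fin r) W)[X]) ≠ 0 := X_sub_C_ne_zero b
  have hι0Xb : ι0 (X - Polynomial.C b) ≠ 0 := by
    intro h0
    exact hXb (hpat0.inj (by rw [h0, map_zero]))
  have hDm := domQ1 hA _ (Polynomial.C (MvPowerSeries.C s) * (X - Polynomial.C b) :
    (MvPowerSeries (Fin r) W)[X]) (mul_ne_zero (Polynomial.C_ne_zero.2 (hCs0 r)) hXb)
  have hDp := domQ1 hA _ (MvPowerSeries.C s * ι0 (X - Polynomial.C b))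
    (mul_ne_zero (hCs0 (r + 1)) hι0Xb)
  rw [← hFm] at hDm
  rw [← hFp] at hDp
  have hAF : AF (QF Fm) := by
    rw [hFm]
    obtain ⟨e⟩ := hPOLR (MvPowerSeries (Fin r) W) 1 (MvPowerSeries.C s) 1
    have h7 := (hq0 W u t hut hu s hs r).of_equiv e
    rw [Polynomial.C_1] at h7
    refine AF.qf (Polynomial.algEquivAevalXAddC (-b)).toRingEquiv 1 _ _ _ _ ?_ (map_one _) h7
    show (Polynomial.algEquivAevalXAddC (-b)) (Polynomial.C (MvPowerSeries.C s) * X) = _
    rw [map_mul]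
    congr 1
    · exact (Polynomial.algEquivAevalXAddC (-b)).commutes (MvPowerSeries.C s)
    · simp [Polynomial.algEquivAevalXAddC, sub_eq_add_neg]
  have hprod : qm Fp (MvPolynomial.C (σ f)) =
      qm Fp (MvPolynomial.C (ι0 g)) * qm Fp (MvPolynomial.C (e0.symm w)) := by
    rw [← map_mul, ← MvPolynomial.C_mul, ← hσfg]
  have hσf : σ f ≠ 0 := by
    have : UC (σ f) := ⟨_, hk⟩
    exact this.ne_zero
  have hne0 : qm Fp (MvPolynomial.C (ι0 g)) ≠ 0 := by
    intro h0
    apply hσf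
    apply hDp.2
    rw [hprod, h0, zero_mul]
  have hs3 : SplitAt (MvPolynomial.C (qm Fp (MvPolynomial.C (ι0 g)))) E2 := by
    apply SplitAt.of_mul (u := MvPolynomial.C (qm Fp (MvPolynomial.C (e0.symm w))))
      (((hw'.map MvPolynomial.C).map (qm Fp)).map MvPolynomial.C)
    rw [← MvPolynomial.C_mul, ← hprod]
    exact hs2
  by_cases hgu : IsUnit (qm Fm (MvPolynomial.C g))
  · -- the denominator is a unit
    have hle : Ideal.span {Fm} ≤ Ideal.comap (MvPolynomial.map ι0) (Ideal.span {Fp}) := by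
      rw [Ideal.span_singleton_le_iff_mem, Ideal.mem_comap, hmap]
      exact Ideal.mem_span_singleton_self Fp
    have hgu' := hgu.map (Ideal.quotientMap (Ideal.span {Fp}) (MvPolynomial.map ι0) hle)
    have e9 : Ideal.quotientMap (Ideal.span {Fp}) (MvPolynomial.map ι0) hle
        (qm Fm (MvPolynomial.C g)) = qm Fp (MvPolynomial.C (ι0 g)) := by
      rw [qm, Ideal.quotientMap_mk, MvPolynomial.map_C]
    rw [e9] at hgu'
    exact hs3.split (hgu'.map MvPolynomial.C)
  exact core h3 h4 h5 ι0 g hpat0 1 Fm Fp hmap hDm.1 hDp.1 hgu hne0 hAF m n _ hE2 hs3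

end Pool.Agent.H40.BP
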