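import Pool.Agent.H40.BP.Stm5
import Mathlib.RingTheory.PowerSeries.WeierstrassPreparation

/-!
Weierstrass preparation in degree one (job 5358).
-/

set_option autoImplicit false

open Polynomial

noncomputable section

namespace Pool.Agent.H40.BP

open IsLocalRing

theorem t_WEI1 : S_WEI1 := by
  intro B _ _ _ F h0 h1
  have hc1 : PowerSeries.coeff 1 (F.map (residue B)) ≠ 0 := by
    intro h
    rw [PowerSeries.coeff_map, residue_eq_zero_iff, mem_maximalIdeal] at h
    exact h h1
  have hc0 : PowerSeries.coeff 0 (F.map (residue B)) = 0 := by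
    rw [PowerSeries.coeff_map, residue_eq_zero_iff, PowerSeries.coeff_zero_eq_constantCoeff]
    exact h0
  have hf : F.map (residue B) ≠ 0 := by
    intro h
    rw [h] at hc1
    exact hc1 (map_zero _)
  have hord : (F.map (residue B)).order = 1 := by
    have := (PowerSeries.order_eq_nat (φ := F.map (residue B)) (n := 1)).2
      ⟨hc1, fun i hi => by
        have : i = 0 := by omega
        rw [this]; exact hc0⟩
    simpa using this
  obtain ⟨g, u, H⟩ := PowerSeries.exists_isWeierstrassFactorization hf
  have hg := H.isDistinguishedAt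
  have hdeg : g.natDegree = 1 := by
    rw [H.natDegree_eq_toNat_order_map, hord]; rfl
  have hmon := hg.monic
  have ha : g.coeff 0 ∈ maximalIdeal B := hg.mem (by rw [hdeg]; norm_num)
  have hgeq : g = X + C (g.coeff 0) := by
    have h3 := Polynomial.eq_X_add_C_of_natDegree_le_one (p := g) (by rw [hdeg])
    have h4 : g.coeff 1 = 1 := by
      have := hmon.coeff_natDegree
      rwa [hdeg] at this
    rw [h4, map_one, one_mul] at h3
    exact h3
  refine ⟨-g.coeff 0, (maximalIdeal B).neg_mem ha, u, H.isUnit, ?_⟩
  have h5 : (g : PowerSeries B) = PowerSeries.X - PowerSeries.C (-g.coeff 0) := by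
    conv_lhs => rw [hgeq]
    rw [Polynomial.coe_add, Polynomial.coe_X, Polynomial.coe_C, map_neg, sub_neg_eq_add]
  rw [← h5]
  exact H.eq_mul

end Pool.Agent.H40.BP
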