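import Pool.Agent.H40.BP.Asm4
import Pool.Agent.H40.BP.GP
import Pool.Agent.H40.BP.AUTD
import Pool.Agent.H40.BP.WEI1

/-!
# Assembly: Quillen's question and the Nori-Rao question for `W[[X_0,...,X_n]]`
-/

set_option autoImplicit false

open Polynomial TensorProduct

noncomputable section

namespace Pool.Agent.H40.BP

open BQ Pool.Agent.W394.BQN IsLocalRing

/-- `W[[X_0,...,X_r]][1/(s f)]`, `f` with a unit coefficient at `X_0` -/
theorem c_gp0 (W : Type) [CommRing W] [IsDomain W] [IsLocalRing W] [IsNoetherianRing W]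
    [IsAdicComplete (maximalIdeal W) W] (u t : W) (hut : maximalIdeal W = Ideal.span {u, t})
    (hu : Prime u) (s : W) (hs : GoodS u s) (r : ℕ) (f : MvPowerSeries (Fin (r + 1)) W)
    (hf0 : MvPowerSeries.constantCoeff f ∈ maximalIdeal W)
    (hf1 : IsUnit (MvPowerSeries.coeff (Finsupp.single 0 1) f)) :
    AF (Localization.Away (MvPowerSeries.C s * f)) := by
  obtain ⟨e, -⟩ := t_AWAYQ _ (MvPowerSeries.C s * f)
  refine AF.of_equiv e (gp_main t_AUTD t_WEI t_WEI1 t_TR t_QUOT t_PATCH t_CPL t_L1 t_BC t_POLR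
    c_BQ2 t_UN t_AWAYQ c_LAU2 c_LOCS ?_ W u t hut hu s hs r f hf0 hf1)
  intro W _ _ _ _ _ u t hut hu s hs r
  exact q0 c_STEPQ t_L1 t_BC t_POLF t_POLR c_BQ2 t_UN t_AWAYQ c_LAU2 c_LOCS 2 (Or.inr rfl)
    W u t hut hu s hs r

/-- `W[[X_0,...,X_(r-1)]][1/(s f)]`, `f` a regular parameter with a unit linear coefficient -/
theorem c_gp (W : Type) [CommRing W] [IsDomain W] [IsLocalRing W] [IsNoetherianRing W]
    [IsAdicComplete (maximalIdeal W) W] (u t : W) (hut : maximalIdeal W = Ideal.span {u, t})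
    (hu : Prime u) (s : W) (hs : GoodS u s) (r : ℕ) (f : MvPowerSeries (Fin r) W)
    (hf0 : MvPowerSeries.constantCoeff f ∈ maximalIdeal W) (i : Fin r)
    (hf1 : IsUnit (MvPowerSeries.coeff (Finsupp.single i 1) f)) :
    AF (Localization.Away (MvPowerSeries.C s * f)) := by
  obtain ⟨r, rfl⟩ : ∃ k, r = k + 1 := ⟨r - 1, by have := i.2; omega⟩
  set τ : MvPowerSeries (Fin (r + 1)) W ≃ₐ[W] MvPowerSeries (Fin (r + 1)) W :=
    MvPowerSeries.renameEquiv (R := W) (Equiv.swap (0 : Fin (r + 1)) i) with hτ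
  have hττ : ∀ g, τ (τ g) = g := by
    intro g
    have h1 : τ.symm = τ := by
      rw [hτ, MvPowerSeries.renameEquiv_symm, Equiv.symm_swap]
    have h2 := τ.symm_apply_apply g
    rwa [h1] at h2
  have hτC : ∀ a : W, τ (MvPowerSeries.C a) = MvPowerSeries.C a := fun a =>
    MvPowerSeries.rename_C _ a
  have hcoeff : ∀ (g : MvPowerSeries (Fin (r + 1)) W) (ν : Fin (r + 1) →₀ ℕ),
      MvPowerSeries.coeff (Finsupp.embDomain (Equiv.swap (0 : Fin (r + 1)) i).toEmbedding ν)
        (τ g) = MvPowerSeries.coeff ν g := by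
    intro g ν
    exact MvPowerSeries.coeff_embDomain_rename (Equiv.swap (0 : Fin (r + 1)) i).toEmbedding g ν
  have h1 := c_gp0 W u t hut hu s hs r (τ f) (by
      have h3 := hcoeff f 0
      simp only [Finsupp.embDomain_zero] at h3
      rw [MvPowerSeries.coeff_zero_eq_constantCoeff_apply,
        MvPowerSeries.coeff_zero_eq_constantCoeff_apply] at h3
      rw [h3]
      exact hf0) (by
      have h3 := hcoeff f (Finsupp.single i 1)
      rw [Finsupp.embDomain_single] at h3
      simp only [Equiv.coe_toEmbedding, Equiv.swap_apply_right] at h3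
      rw [h3]
      exact hf1)
  have h2 := AF.away τ.toRingEquiv _ h1
  have h4 : τ.toRingEquiv (MvPowerSeries.C s * τ f) = MvPowerSeries.C s * f := by
    show τ (MvPowerSeries.C s * τ f) = _
    rw [map_mul, hττ, hτC]
  rwa [h4] at h2

/-- regular parameters are in the maximal ideal -/
theorem c_mem (n : ℕ) (W : Type) [CommRing W] [IsLocalRing W] (r : MvPowerSeries (Fin n) W)
    (hr : MvPowerSeries.constantCoeff r ∈ maximalIdeal W) : r ∈ maximalIdeal _ := by
  rw [mem_maximalIdeal, mem_nonunits_iff, MvPowerSeries.isUnit_iff_constantCoeff]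
  exact hr

/-- and not in its square -/
theorem c_notMem (n : ℕ) (W : Type) [CommRing W] [IsLocalRing W] (r : MvPowerSeries (Fin n) W)
    (hr : MvPowerSeries.constantCoeff r ∈ maximalIdeal W) (i : Fin n)
    (hr1 : IsUnit (MvPowerSeries.coeff (Finsupp.single i 1) r)) :
    r ∉ maximalIdeal (MvPowerSeries (Fin n) W) ^ 2 := by
  classical
  have key : ∀ f ∈ maximalIdeal (MvPowerSeries (Fin n) W) ^ 2,
      MvPowerSeries.coeff (Finsupp.single i 1) f ∈ maximalIdeal W := by
    intro f hf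
    rw [pow_two] at hf
    refine Submodule.mul_induction_on hf ?_ ?_
    · intro a ha b hb
      have ha' : MvPowerSeries.constantCoeff a ∈ maximalIdeal W := by
        rw [mem_maximalIdeal, mem_nonunits_iff, MvPowerSeries.isUnit_iff_constantCoeff] at ha
        exact ha
      have hb' : MvPowerSeries.constantCoeff b ∈ maximalIdeal W := by
        rw [mem_maximalIdeal, mem_nonunits_iff, MvPowerSeries.isUnit_iff_constantCoeff] at hb
        exact hb
      rw [MvPowerSeries.coeff_mul, Finsupp.antidiagonal_single, Finset.sum_map]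
      apply Ideal.sum_mem
      rintro ⟨j, k⟩ hjk
      have hjk := Finset.HasAntidiagonal.mem_antidiagonal.1 hjk
      simp only at hjk
      rcases Nat.eq_zero_or_pos j with rfl | hj
      · refine Ideal.mul_mem_right _ _ ?_
        simpa using ha'
      · have hk0 : k = 0 := by omega
        subst hk0
        refine Ideal.mul_mem_left _ _ ?_
        simpa using hb'
    · intro a b ha hb
      rw [map_add]
      exact Ideal.add_mem _ ha hb
  intro h
  exact (mem_nonunits_iff.1 ((mem_maximalIdeal _).1 (key r h))) hr1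

/-- `W[[X]][1/r]` -/
theorem c_Q1 (W : Type) [CommRing W] [IsRegularLocalRing W] [IsAdicComplete (maximalIdeal W) W]
    (hW : ringKrullDim W = 2) (n : ℕ) (r : MvPowerSeries (Fin n) W)
    (hr : MvPowerSeries.constantCoeff r ∈ maximalIdeal W) (i : Fin n)
    (hr1 : IsUnit (MvPowerSeries.coeff (Finsupp.single i 1) r)) :
    AllFree (Localization.Away r) := by
  obtain ⟨hd, x, y, hxy, hx⟩ := t_R2 W hW
  have h1 := c_gp W x y hxy hx 1 (Or.inl rfl) n r hr i hr1
  rw [map_one, one_mul] at h1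
  exact (allFree_iff_AF _).2 h1

/-- `W[[X]][1/u]` -/
theorem c_Q2 (W : Type) [CommRing W] [IsRegularLocalRing W] [IsAdicComplete (maximalIdeal W) W]
    (hW : ringKrullDim W = 2) (n : ℕ) (u : W) (hu : u ∈ maximalIdeal W)
    (hu2 : u ∉ maximalIdeal W ^ 2) :
    AllFree (Localization.Away (MvPowerSeries.C u : MvPowerSeries (Fin n) W)) := by
  obtain ⟨hd, hpr, t, ht⟩ := t_R2U W hW u hu hu2
  exact (allFree_iff_AF _).2 (c_awayC W u t ht hpr u (Or.inr ⟨1, one_ne_zero, (mul_one u).symm⟩) n)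

/-- `W[[X]][1/a]`, `a` divisible by a regular parameter of `W` -/
theorem c_N1 (W : Type) [CommRing W] [IsRegularLocalRing W] [IsAdicComplete (maximalIdeal W) W]
    (hW : ringKrullDim W = 2) (n : ℕ) (u c : W) (hu : u ∈ maximalIdeal W)
    (hu2 : u ∉ maximalIdeal W ^ 2) (hc : c ≠ 0) :
    AllFree (Localization.Away (MvPowerSeries.C (u * c) : MvPowerSeries (Fin n) W)) := by
  obtain ⟨hd, hpr, t, ht⟩ := t_R2U W hW u hu hu2
  exact (allFree_iff_AF _).2 (c_awayC W u t ht hpr (u * c) (Or.inr ⟨c, hc, rfl⟩) n)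

/-- `W[[X]][1/(ar)]`, `a` divisible by a regular parameter of `W` -/
theorem c_N2 (W : Type) [CommRing W] [IsRegularLocalRing W] [IsAdicComplete (maximalIdeal W) W]
    (hW : ringKrullDim W = 2) (n : ℕ) (u c : W) (hu : u ∈ maximalIdeal W)
    (hu2 : u ∉ maximalIdeal W ^ 2) (hc : c ≠ 0) (r : MvPowerSeries (Fin n) W)
    (hr : MvPowerSeries.constantCoeff r ∈ maximalIdeal W) (i : Fin n)
    (hr1 : IsUnit (MvPowerSeries.coeff (Finsupp.single i 1) r)) :
    AllFree (Localization.Away (MvPowerSeries.C (u * c) * r)) := by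
  obtain ⟨hd, hpr, t, ht⟩ := t_R2U W hW u hu hu2
  exact (allFree_iff_AF _).2 (c_gp W u t ht hpr (u * c) (Or.inr ⟨c, hc, rfl⟩) n r hr i hr1)

end Pool.Agent.H40.BP
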