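import Pool.Agent.H40.BP.Asm5
import Pool.Agent.H40.BP.HZ

/-!
# Assembly: Quillen's question for `W[[X_0,...,X_(r+1)]]/(X_0 X_1 - u)`
-/

set_option autoImplicit false

open Polynomial TensorProduct

noncomputable section

namespace Pool.Agent.H40.BP

open BQ Pool.Agent.W394.BQN IsLocalRing

/-- `W` embeds into `W[[x]][[w,X]]/(xw-u)` -/
theorem hyp_const (W : Type) [CommRing W] [IsDomain W] [IsLocalRing W] [IsNoetherianRing W]
    (u : W) (hu : u ∈ maximalIdeal W) (r : ℕ) (a0 : W) (ha0 : a0 ≠ 0) :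
    Ideal.Quotient.mk (Ideal.span {(MvPowerSeries.C PowerSeries.X * MvPowerSeries.X 0 -
      MvPowerSeries.C (PowerSeries.C u) : MvPowerSeries (Fin (r + 1)) (PowerSeries W))})
      (MvPowerSeries.C (PowerSeries.C a0)) ≠ 0 := by
  intro h0
  have h1 := Ideal.Quotient.eq_zero_iff_mem.1 h0
  rw [Ideal.mem_span_singleton] at h1
  obtain ⟨b, hb⟩ := h1
  have e0 : a0 = -(u * PowerSeries.coeff 0 (MvPowerSeries.coeff (Finsupp.single 0 0) b)) := by
    have h2 := congrArg MvPowerSeries.constantCoeff hb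
    rw [MvPowerSeries.constantCoeff_C, map_mul, map_sub, map_mul, MvPowerSeries.constantCoeff_C,
      MvPowerSeries.constantCoeff_C, MvPowerSeries.constantCoeff_X, mul_zero, zero_sub] at h2
    have h3 := congrArg (PowerSeries.coeff 0) h2
    rw [PowerSeries.coeff_zero_C, neg_mul, map_neg, PowerSeries.coeff_C_mul] at h3
    rw [Finsupp.single_zero, MvPowerSeries.coeff_zero_eq_constantCoeff_apply]
    exact h3
  have e1 : ∀ n : ℕ, PowerSeries.coeff n (MvPowerSeries.coeff (Finsupp.single 0 n) b) =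
      u * PowerSeries.coeff (n + 1) (MvPowerSeries.coeff (Finsupp.single 0 (n + 1)) b) := by
    intro n
    have h2 := congrArg (MvPowerSeries.coeff (Finsupp.single 0 (n + 1))) hb
    have h3 : MvPowerSeries.coeff (Finsupp.single (0 : Fin (r + 1)) (n + 1))
        (MvPowerSeries.C (PowerSeries.C a0) : MvPowerSeries (Fin (r + 1)) (PowerSeries W)) = 0 := by
      classical
      rw [MvPowerSeries.coeff_C, if_neg]
      intro h
      rw [Finsupp.single_eq_zero] at h
      exact Nat.succ_ne_zero n h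
    have h4 : MvPowerSeries.coeff (Finsupp.single (0 : Fin (r + 1)) (n + 1))
        ((MvPowerSeries.X 0 : MvPowerSeries (Fin (r + 1)) (PowerSeries W)) * b) =
        MvPowerSeries.coeff (Finsupp.single 0 n) b := by
      have h5 := MvPowerSeries.coeff_add_monomial_mul (Finsupp.single (0 : Fin (r + 1)) 1)
        (Finsupp.single (0 : Fin (r + 1)) n) b (1 : PowerSeries W)
      rw [one_mul, ← Finsupp.single_add, add_comm 1 n] at h5
      exact h5
    rw [h3, sub_mul, map_sub, mul_assoc, MvPowerSeries.coeff_C_mul, MvPowerSeries.coeff_C_mul,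
      h4] at h2
    have h6 := congrArg (PowerSeries.coeff (n + 1)) h2
    rw [map_zero, map_sub, PowerSeries.coeff_succ_X_mul, PowerSeries.coeff_C_mul] at h6
    exact sub_eq_zero.1 h6.symm
  have e2 : ∀ n : ℕ, ∃ c, a0 = u ^ (n + 1) * c := by
    intro n
    refine ⟨-PowerSeries.coeff n (MvPowerSeries.coeff (Finsupp.single 0 n) b), ?_⟩
    induction n with
    | zero => rw [pow_one, mul_neg]; exact e0
    | succ n ih => rw [ih, e1 n]; ring
  apply ha0
  have h7 : a0 ∈ ⨅ i : ℕ, maximalIdeal W ^ i := by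
    rw [Ideal.mem_iInf]
    intro i
    obtain ⟨c, hc⟩ := e2 i
    rw [hc, pow_succ, mul_assoc]
    exact Ideal.mul_mem_right _ _ (Ideal.pow_mem_pow hu i)
  rw [Ideal.iInf_pow_eq_bot_of_isLocalRing _ (maximalIdeal.isMaximal W).ne_top] at h7
  exact h7

/-- the projection to `W[[X_0,...,X_(r+1)]]/(X_0 X_1 - u)` -/
def hypMk (W : Type) [CommRing W] (u : W) (r : ℕ) :
    MvPowerSeries (Fin (r + 2)) W →+* Hyp W u r := Ideal.Quotient.mk (hypIdeal W u r)

/-- the rings `H[1/(a X_0)]` -/
theorem c_hypAway (W : Type) [CommRing W] [IsDomain W] [IsLocalRing W] [IsNoetherianRing W]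
    [IsAdicComplete (maximalIdeal W) W] (u t : W) (hut : maximalIdeal W = Ideal.span {u, t})
    (hu : Prime u) (r : ℕ) (a : W) (ha0 : a ≠ 0)
    (haC : AF (Localization.Away (MvPowerSeries.C a * MvPowerSeries.X 0 :
      MvPowerSeries (Fin (r + 1)) W))) :
    AF (Localization.Away (hypMk W u r (MvPowerSeries.X 0 * MvPowerSeries.C a))) := by
  have hW1 : IsAdicComplete (maximalIdeal (PowerSeries W)) (PowerSeries W) := t_CPLP W
  have hW1d : IsDomain (PowerSeries W) := NoZeroDivisors.to_isDomain _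
  obtain ⟨hpu1, hfact⟩ := t_FACTX W u t hut hu
  obtain ⟨hq, hqp, hxp, hxpr, hppr, hxndp, hpndx⟩ := hfact (r + 1) _ _ _ rfl rfl rfl
  obtain ⟨-, -, -, hxpr0, hppr0, -, hpndx0⟩ := hfact r _ _ _ rfl rfl rfl
  have hum : u ∈ maximalIdeal W := by
    rw [hut]
    exact Ideal.subset_span (by simp)
  have hX : AF (Localization.Away (MvPowerSeries.C PowerSeries.X *
      MvPowerSeries.C (PowerSeries.C a) : MvPowerSeries (Fin r) (PowerSeries W))) := by
    obtain ⟨e, he1, he2, he3⟩ := t_SW r W
    have h8 := AF.away e.symm _ haC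
    have h9 : e.symm (MvPowerSeries.C a * MvPowerSeries.X 0) =
        MvPowerSeries.C PowerSeries.X * MvPowerSeries.C (PowerSeries.C a) := by
      apply e.injective
      rw [e.apply_symm_apply, map_mul, he1, he2, mul_comm]
    rwa [h9] at h8
  have key := hyp_away_gen t_AUTC t_WEI t_TR t_QUOT t_PATCH t_CPL t_BC t_POLR t_DOM t_AWAYQ
    c_LOCS (PowerSeries W) PowerSeries.X (PowerSeries.C t) (PowerSeries.C u) (PowerSeries.C a) r
    _ _ _ _ rfl rfl rfl rfl hq hqp hxp hxpr hxndp hxpr0 hppr0 hpndx0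
    (hyp_const W u hum r a ha0) hX
  obtain ⟨eA, -⟩ := t_AWAYQ _ (Ideal.Quotient.mk (Ideal.span {(MvPowerSeries.C PowerSeries.X *
    MvPowerSeries.X 0 - MvPowerSeries.C (PowerSeries.C u) :
      MvPowerSeries (Fin (r + 1)) (PowerSeries W))})
    (MvPowerSeries.C PowerSeries.X * MvPowerSeries.C (PowerSeries.C a)))
  have key2 := key.of_equiv eA
  obtain ⟨e, he1, he2, he3⟩ := t_SW (r + 1) W
  let e1 : MvPowerSeries (Fin (r + 1)) (PowerSeries W) ⧸ Ideal.span
      {(MvPowerSeries.C PowerSeries.X * MvPowerSeries.X 0 -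
        MvPowerSeries.C (PowerSeries.C u) : MvPowerSeries (Fin (r + 1)) (PowerSeries W))} ≃+*
      Hyp W u r :=
    Ideal.quotientEquiv _ (hypIdeal W u r) e (by
      rw [hypIdeal, Ideal.map_span, Set.image_singleton]
      congr 2
      show _ = e (MvPowerSeries.C PowerSeries.X * MvPowerSeries.X 0 -
        MvPowerSeries.C (PowerSeries.C u))
      rw [map_sub, map_mul, he1, he2, he3]
      rfl)
  have h10 := AF.away e1 _ key2
  have h11 : e1 (Ideal.Quotient.mk _ (MvPowerSeries.C PowerSeries.X *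
      MvPowerSeries.C (PowerSeries.C a))) =
      hypMk W u r (MvPowerSeries.X 0 * MvPowerSeries.C a) := by
    show Ideal.quotientEquiv _ _ _ _ (Ideal.Quotient.mk _ _) = _
    rw [Ideal.quotientEquiv_mk, map_mul, he1, he2]
    rfl
  rwa [h11] at h10

/-- `X_0` is a regular parameter of `H` -/
theorem hyp_X0 (W : Type) [CommRing W] [IsRegularLocalRing W] (hW : ringKrullDim W = 2) (u : W)
    (hu : u ∈ maximalIdeal W) (hu2 : u ∉ maximalIdeal W ^ 2) (r : ℕ)
    [IsLocalRing (Hyp W u r)] :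
    hypMk W u r (MvPowerSeries.X 0) ∈ maximalIdeal (Hyp W u r) ∧
      hypMk W u r (MvPowerSeries.X 0) ∉ maximalIdeal (Hyp W u r) ^ 2 := by
  have hsurj : Function.Surjective (hypMk W u r) := Ideal.Quotient.mk_surjective
  have hker : RingHom.ker (hypMk W u r) = hypIdeal W u r := Ideal.mk_ker
  have hmax : maximalIdeal (Hyp W u r) =
      Ideal.map (hypMk W u r) (maximalIdeal (MvPowerSeries (Fin (r + 2)) W)) := by
    rcases Ideal.map_eq_top_or_isMaximal_of_surjective (hypMk W u r) hsurj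
      (maximalIdeal.isMaximal (MvPowerSeries (Fin (r + 2)) W)) with h | h
    · exfalso
      have h1 : (hypMk W u r) 1 ∈ Ideal.map (hypMk W u r)
          (maximalIdeal (MvPowerSeries (Fin (r + 2)) W)) := by
        rw [h]
        exact Submodule.mem_top
      rw [← Ideal.mem_comap, Ideal.comap_map_of_surjective' _ hsurj, hker] at h1
      have h2 : hypIdeal W u r ≤ maximalIdeal (MvPowerSeries (Fin (r + 2)) W) := by
        rw [hypIdeal, Ideal.span_singleton_le_iff_mem]
        apply c_mem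
        rw [map_sub, map_mul, MvPowerSeries.constantCoeff_X, zero_mul, zero_sub,
          MvPowerSeries.constantCoeff_C]
        exact (maximalIdeal W).neg_mem hu
      rw [sup_eq_left.2 h2] at h1
      exact (maximalIdeal.isMaximal (MvPowerSeries (Fin (r + 2)) W)).ne_top
        ((Ideal.eq_top_iff_one _).2 h1)
    · exact (IsLocalRing.eq_maximalIdeal h).symm
  constructor
  · rw [hmax]
    apply Ideal.mem_map_of_mem
    apply c_mem
    rw [MvPowerSeries.constantCoeff_X]
    exact Ideal.zero_mem _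
  · intro h
    rw [hmax, ← Ideal.map_pow, ← Ideal.mem_comap, Ideal.comap_map_of_surjective' _ hsurj, hker,
      Submodule.mem_sup] at h
    obtain ⟨z, hz, w, hw, hzw⟩ := h
    rw [hypIdeal, Ideal.mem_span_singleton] at hw
    obtain ⟨b, hb⟩ := hw
    have hz' : z = MvPowerSeries.X 0 - (MvPowerSeries.X 0 * MvPowerSeries.X 1 -
        MvPowerSeries.C u) * b := by
      rw [← hb, ← hzw]
      ring
    have hz0 : MvPowerSeries.constantCoeff z ∈ maximalIdeal W := by
      rw [hz', map_sub, map_mul, map_sub, map_mul, MvPowerSeries.constantCoeff_X,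
        MvPowerSeries.constantCoeff_C, zero_mul, zero_sub, zero_sub, neg_mul, neg_neg]
      exact Ideal.mul_mem_right _ _ hu
    have hz1 : IsUnit (MvPowerSeries.coeff (Finsupp.single 0 1) z) := by
      have h4 : MvPowerSeries.coeff (Finsupp.single (0 : Fin (r + 2)) 1)
          ((MvPowerSeries.X 0 : MvPowerSeries (Fin (r + 2)) W) * (MvPowerSeries.X 1 * b)) = 0 := by
        have h5 := MvPowerSeries.coeff_add_monomial_mul (Finsupp.single (0 : Fin (r + 2)) 1)
          (0 : Fin (r + 2) →₀ ℕ) (MvPowerSeries.X 1 * b) (1 : W)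
        rw [one_mul, add_zero, MvPowerSeries.coeff_zero_X_mul] at h5
        exact h5
      rw [hz', map_sub, sub_mul, map_sub, mul_assoc, h4, MvPowerSeries.coeff_C_mul, zero_sub,
        sub_neg_eq_add, MvPowerSeries.coeff_index_single_self_X]
      by_contra hnu
      have h6 : (1 : W) + u * MvPowerSeries.coeff (Finsupp.single 0 1) b ∈ maximalIdeal W :=
        (mem_maximalIdeal _).2 hnu
      have h7 := (maximalIdeal W).sub_mem h6 (Ideal.mul_mem_right
        (MvPowerSeries.coeff (Finsupp.single 0 1) b) (maximalIdeal W) hu)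
      rw [add_sub_cancel_right] at h7
      exact (maximalIdeal.isMaximal W).ne_top ((Ideal.eq_top_iff_one _).2 h7)
    exact c_notMem (r + 2) W z hz0 0 hz1 hz

/-- the ring `H[1/X_0]` -/
theorem c_H1 (W : Type) [CommRing W] [IsRegularLocalRing W] [IsAdicComplete (maximalIdeal W) W]
    (hW : ringKrullDim W = 2) (u : W) (hu : u ∈ maximalIdeal W) (hu2 : u ∉ maximalIdeal W ^ 2)
    (r : ℕ) : AllFree (Localization.Away (hypMk W u r (MvPowerSeries.X 0))) := by
  obtain ⟨hd, hpr, t, ht⟩ := t_R2U W hW u hu hu2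
  have h1 := c_hypAway W u t ht hpr r 1 one_ne_zero
    (c_awayCX W u t ht hpr 1 (Or.inl rfl) r)
  rw [map_one, mul_one] at h1
  exact (allFree_iff_AF _).2 h1

/-- the ring `H[1/(v c X_0)]` -/
theorem c_H2 (W : Type) [CommRing W] [IsRegularLocalRing W] [IsAdicComplete (maximalIdeal W) W]
    (hW : ringKrullDim W = 2) (u : W) (hu : u ∈ maximalIdeal W) (hu2 : u ∉ maximalIdeal W ^ 2)
    (r : ℕ) (v c : W) (hv : v ∈ maximalIdeal W) (hv2 : v ∉ maximalIdeal W ^ 2) (hc : c ≠ 0) :
    AllFree (Localization.Away (hypMk W u r (MvPowerSeries.X 0 * MvPowerSeries.C (v * c)))) := by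
  obtain ⟨hd, hpr, t, ht⟩ := t_R2U W hW u hu hu2
  obtain ⟨-, hprv, tv, htv⟩ := t_R2U W hW v hv hv2
  exact (allFree_iff_AF _).2 (c_hypAway W u t ht hpr r (v * c) (mul_ne_zero hprv.ne_zero hc)
    (c_awayCX W v tv htv hprv (v * c) (Or.inr ⟨c, hc, rfl⟩) r))

end Pool.Agent.H40.BP
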