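import Pool.Agent.H40.BP.Asm7

/-!
# Generators of the maximal ideal of `W[[X_0,...,X_(r+1)]]/(X_0 X_1 - u)`
-/

set_option autoImplicit false

open Polynomial TensorProduct

noncomputable section

namespace Pool.Agent.H40.BP

open BQ Pool.Agent.W394.BQN IsLocalRing

/-- `v` and the variables generate the maximal ideal of `H` if `u, v` generate that of `W` -/
theorem hyp_max (W : Type) [CommRing W] [IsLocalRing W] [IsNoetherianRing W] (u : W)
    (hu : u ∈ maximalIdeal W) (r : ℕ) [IsLocalRing (Hyp W u r)] (v : W)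
    (huv : maximalIdeal W = Ideal.span {u, v}) :
    maximalIdeal (Hyp W u r) = Ideal.span ({hypMk W u r (MvPowerSeries.C v)} ∪
      Set.range (fun i : Fin (r + 2) => hypMk W u r (MvPowerSeries.X i))) := by
  have hsurj : Function.Surjective (hypMk W u r) := Ideal.Quotient.mk_surjective
  have hker : RingHom.ker (hypMk W u r) = hypIdeal W u r := Ideal.mk_ker
  have hmax : maximalIdeal (Hyp W u r) =
      Ideal.map (hypMk W u r) (maximalIdeal (MvPowerSeries (Fin (r + 2)) W)) := by
    rcases Ideal.map_eq_top_or_isMaximal_of_surjective (hypMk W u r) hsurj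
      (maximalIdeal.isMaximal (MvPowerSeries (Fin (r + 2)) W)) with h | h
    · exfalso
      have h1 : (hypMk W u r) 1 ∈ Ideal.map (hypMk W u r)
          (maximalIdeal (MvPowerSeries (Fin (r + 2)) W)) := by
        rw [h]
        exact Submodule.mem_top
      rw [← Ideal.mem_comap, Ideal.comap_map_of_surjective' _ hsurj, hker] at h1
      have h2 : hypIdeal W u r ≤ maximalIdeal (MvPowerSeries (Fin (r + 2)) W) := by
        rw [hypIdeal, Ideal.span_singleton_le_iff_mem]
        apply c_mem
        rw [map_sub, map_mul, MvPowerSeries.constantCoeff_X, zero_mul, zero_sub,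
          MvPowerSeries.constantCoeff_C]
        exact (maximalIdeal W).neg_mem hu
      rw [sup_eq_left.2 h2] at h1
      exact (maximalIdeal.isMaximal (MvPowerSeries (Fin (r + 2)) W)).ne_top
        ((Ideal.eq_top_iff_one _).2 h1)
    · exact (IsLocalRing.eq_maximalIdeal h).symm
  have hu' : hypMk W u r (MvPowerSeries.C u) =
      hypMk W u r (MvPowerSeries.X 0) * hypMk W u r (MvPowerSeries.X 1) := by
    rw [← map_mul]
    symm
    refine (Ideal.Quotient.mk_eq_mk_iff_sub_mem _ _).2 ?_
    exact Ideal.subset_span (Set.mem_singleton _)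
  rw [hmax, (t_QPAR (r + 2) W).1 u v huv, Ideal.map_span]
  apply le_antisymm
  · rw [Ideal.span_le]
    rintro _ ⟨z, hz, rfl⟩
    rcases hz with hz | ⟨i, rfl⟩
    · rcases hz with rfl | hz
      · show hypMk W u r (MvPowerSeries.C u) ∈ _
        rw [hu']
        exact Ideal.mul_mem_right _ _ (Ideal.subset_span (Or.inr ⟨0, rfl⟩))
      · rw [Set.mem_singleton_iff] at hz
        subst hz
        exact Ideal.subset_span (Or.inl rfl)
    · exact Ideal.subset_span (Or.inr ⟨i, rfl⟩)
  · apply Ideal.span_mono
    rintro _ (rfl | ⟨i, rfl⟩)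
    · exact ⟨_, Or.inl (Or.inr rfl), rfl⟩
    · exact ⟨_, Or.inr ⟨i, rfl⟩, rfl⟩

end Pool.Agent.H40.BP
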