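import Pool.Agent.H40.BP.DX
import Pool.Agent.H40.BP.QMAIN
import Pool.Agent.H40.BP.STEP

/-!
# Quillen's question for `W[[X_0,...,X_(r+1)]]/(X_0 X_1 - u)`
-/

set_option autoImplicit false

open Polynomial

noncomputable section

namespace Pool.Agent.H40.BP

open BQ IsLocalRing Pool.Agent.W394.BQN

namespace HX

open D3aux STEP

theorem dxl (R : Type) [CommRing R] [IsDomain R] [IsLocalRing R] [IsNoetherianRing R]
    (x y w p : R) (q : Ideal R) (hq : q.IsPrime) (hqs : q = Ideal.span {x, y, p})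
    (hxp : (Ideal.span {x, p}).IsPrime) (hx : Prime x) (hnxp : ¬ x ∣ p) (F : R)
    (hF : F = x * w - p) :
    IsDomain (R ⧸ Ideal.span {F}) ∧
    ∃ (Ω : Type) (_ : CommRing Ω) (_ : IsDomain Ω) (_ : IsLocalRing Ω) (_ : IsNoetherianRing Ω)
      (φ : R ⧸ Ideal.span {F} →+* Ω),
      Function.Injective φ ∧
      (∀ ω : Ω, ∃ f : R, f ∉ q ∧ ∃ a, φ (Ideal.Quotient.mk _ f) * ω = φ a) ∧
      maximalIdeal Ω = Ideal.span {φ (Ideal.Quotient.mk _ x), φ (Ideal.Quotient.mk _ y)} ∧
      Prime (φ (Ideal.Quotient.mk _ x)) := by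
  have hxq : x ∈ q := by
    rw [hqs]
    exact Ideal.subset_span (by simp)
  have hyq : y ∈ q := by
    rw [hqs]
    exact Ideal.subset_span (by simp)
  have hpq : p ∈ q := by
    rw [hqs]
    exact Ideal.subset_span (by simp)
  have hFq : F ∈ q := by
    rw [hF]
    exact q.sub_mem (q.mul_mem_right _ hxq) hpq
  have hFle : Ideal.span {F} ≤ q := by
    rw [Ideal.span_le, Set.singleton_subset_iff]
    exact hFq
  have hsurj : Function.Surjective (Ideal.Quotient.mk (Ideal.span {F})) :=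
    Ideal.Quotient.mk_surjective
  have hker : RingHom.ker (Ideal.Quotient.mk (Ideal.span {F})) = Ideal.span {F} :=
    Ideal.mk_ker
  have hnt : Nontrivial (R ⧸ Ideal.span {F}) :=
    Ideal.Quotient.nontrivial_iff.2 (ne_top_of_le_ne_top hq.ne_top hFle)
  have hloc : IsLocalRing (R ⧸ Ideal.span {F}) := IsLocalRing.of_surjective' _ hsurj
  have hpmk : Ideal.Quotient.mk (Ideal.span {F}) p = Ideal.Quotient.mk (Ideal.span {F}) x *
      Ideal.Quotient.mk (Ideal.span {F}) w := by
    rw [← map_mul, eq_comm, Ideal.Quotient.eq, Ideal.mem_span_singleton]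
    exact ⟨1, by rw [hF]; ring⟩
  -- `x` is a nonzerodivisor
  have hreg : ∀ a : R ⧸ Ideal.span {F}, Ideal.Quotient.mk (Ideal.span {F}) x * a = 0 → a = 0 := by
    intro a
    obtain ⟨a, rfl⟩ := hsurj a
    intro ha
    rw [← map_mul, Ideal.Quotient.eq_zero_iff_mem, Ideal.mem_span_singleton] at ha
    obtain ⟨b, hb⟩ := ha
    have h1 : x ∣ p * b := ⟨w * b - a, by rw [mul_sub, hb, hF]; ring⟩
    rcases hx.dvd_or_dvd h1 with h2 | h2
    · exact absurd h2 hnxp
    · obtain ⟨c, rfl⟩ := h2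
      rw [Ideal.Quotient.eq_zero_iff_mem, Ideal.mem_span_singleton]
      refine ⟨c, mul_left_cancel₀ hx.ne_zero ?_⟩
      rw [hb]
      ring
  -- `(x)` is prime
  have hxprime : (Ideal.span {Ideal.Quotient.mk (Ideal.span {F}) x}).IsPrime := by
    have h1 : (Ideal.map (Ideal.Quotient.mk (Ideal.span {F})) (Ideal.span {x, p})).IsPrime := by
      refine Ideal.map_isPrime_of_surjective hsurj ?_
      rw [hker, Ideal.span_le, Set.singleton_subset_iff, hF]
      refine Ideal.sub_mem _ (Ideal.mul_mem_right _ _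
        (Ideal.subset_span (by simp))) (Ideal.subset_span (by simp))
    have h2 : Ideal.map (Ideal.Quotient.mk (Ideal.span {F})) (Ideal.span {x, p}) =
        Ideal.span {Ideal.Quotient.mk (Ideal.span {F}) x} := by
      rw [Ideal.map_span, Set.image_pair, hpmk]
      apply le_antisymm
      · rw [Ideal.span_le]
        rintro z (rfl | hz)
        · exact Ideal.mem_span_singleton_self _
        · rw [Set.mem_singleton_iff] at hz
          rw [hz]
          exact Ideal.mul_mem_right _ _ (Ideal.mem_span_singleton_self _)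
      · exact Ideal.span_mono (by simp)
    rw [← h2]
    exact h1
  have hdom : IsDomain (R ⧸ Ideal.span {F}) := isDomain_of_prime _ hreg hxprime
  refine ⟨hdom, ?_⟩
  obtain ⟨qb, hqb⟩ : ∃ qb, qb = Ideal.map (Ideal.Quotient.mk (Ideal.span {F})) q := ⟨_, rfl⟩
  have hqbp : qb.IsPrime := by
    rw [hqb]
    exact Ideal.map_isPrime_of_surjective hsurj (by rw [hker]; exact hFle)
  have hqmem : ∀ f : R, Ideal.Quotient.mk (Ideal.span {F}) f ∈ qb ↔ f ∈ q := by
    intro f
    rw [hqb, ← Ideal.mem_comap, Ideal.comap_map_of_surjective' _ hsurj, hker, sup_eq_left.2 hFle]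
  have hqspan : qb = Ideal.span {Ideal.Quotient.mk (Ideal.span {F}) x,
      Ideal.Quotient.mk (Ideal.span {F}) y} := by
    rw [hqb, hqs, Ideal.map_span, Set.image_insert_eq, Set.image_pair, hpmk]
    apply le_antisymm
    · rw [Ideal.span_le]
      rintro z (rfl | rfl | hz)
      · exact Ideal.subset_span (by simp)
      · exact Ideal.subset_span (by simp)
      · rw [Set.mem_singleton_iff] at hz
        rw [hz]
        exact Ideal.mul_mem_right _ _ (Ideal.subset_span (by simp))
    · refine Ideal.span_mono ?_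
      rintro z (rfl | hz)
      · simp
      · rw [Set.mem_singleton_iff] at hz
        rw [hz]
        simp
  have hd : IsDomain (Localization.AtPrime qb) :=
    IsLocalization.isDomain_localization qb.primeCompl_le_nonZeroDivisors
  have hn : IsNoetherianRing (Localization.AtPrime qb) :=
    IsLocalization.isNoetherianRing qb.primeCompl (Localization.AtPrime qb) inferInstance
  have hinj := IsLocalization.injective (Localization.AtPrime qb)
    qb.primeCompl_le_nonZeroDivisors
  refine ⟨Localization.AtPrime qb, inferInstance, hd, inferInstance, hn,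
    algebraMap (R ⧸ Ideal.span {F}) (Localization.AtPrime qb), hinj, ?_, ?_, ?_⟩
  · intro ω
    obtain ⟨⟨a, s⟩, has⟩ := IsLocalization.surj qb.primeCompl ω
    obtain ⟨f, hf⟩ := hsurj (s : R ⧸ Ideal.span {F})
    refine ⟨f, ?_, a, ?_⟩
    · intro hfq
      apply s.2
      rw [← hf]
      exact (hqmem f).2 hfq
    · rw [hf, mul_comm]
      exact has
  · rw [← Localization.AtPrime.map_eq_maximalIdeal]
    have e := congrArg (Ideal.map (algebraMap (R ⧸ Ideal.span {F}) (Localization.AtPrime qb)))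
      hqspan
    rw [e, Ideal.map_span, Set.image_pair]
  · have h2 : Disjoint (qb.primeCompl : Set (R ⧸ Ideal.span {F}))
        (Ideal.span {Ideal.Quotient.mk (Ideal.span {F}) x} : Set (R ⧸ Ideal.span {F})) := by
      rw [Set.disjoint_left]
      intro z hz hz'
      apply hz
      rw [SetLike.mem_coe, Ideal.mem_span_singleton] at hz'
      exact qb.mem_of_dvd hz' ((hqmem x).2 hxq)
    have h3 := IsLocalization.isPrime_of_isPrime_disjoint qb.primeCompl
      (Localization.AtPrime qb) _ hxprime h2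
    rw [Ideal.map_span, Set.image_singleton] at h3
    refine (Ideal.span_singleton_prime ?_).1 h3
    intro h4
    have h6 := hinj (h4.trans (map_zero _).symm)
    have h7 := hreg 1 (by rw [h6, zero_mul])
    exact one_ne_zero h7


/-- the core of the argument for general rings -/
theorem coreA (h3 : S_TR) (h4 : S_QUOT) (h5 : S_PATCH) {A P : Type} [CommRing A] [CommRing P]
    [IsNoetherianRing A] (ι0 : A →+* P) (g : A) (hpat : AnPatch ι0 g) (l : ℕ)
    (Fm : MvPolynomial (Fin l) A) (Fp : MvPolynomial (Fin l) P)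
    (hFp : MvPolynomial.map ι0 Fm = Fp) (hDm : IsDomain (QF Fm)) (hDp : IsDomain (QF Fp))
    (hne : qm Fp (MvPolynomial.C (ι0 g)) ≠ 0) (hAF : AF (QF Fm)) (m n : ℕ)
    (E : Matrix (Fin n) (Fin n) (MvPolynomial (Fin m) (QF Fp))) (hE : E * E = E)
    (hs : SplitAt (MvPolynomial.C (qm Fp (MvPolynomial.C (ι0 g)))) E) : Split E := by
  subst hFp
  by_cases hgu : IsUnit (qm Fm (MvPolynomial.C g))
  · have hle : Ideal.span {Fm} ≤ Ideal.comap (MvPolynomial.map ι0)
        (Ideal.span {MvPolynomial.map ι0 Fm}) := by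
      rw [Ideal.span_singleton_le_iff_mem, Ideal.mem_comap]
      exact Ideal.mem_span_singleton_self _
    have hgu' := hgu.map (Ideal.quotientMap (Ideal.span {MvPolynomial.map ι0 Fm})
      (MvPolynomial.map ι0) hle)
    have e9 : Ideal.quotientMap (Ideal.span {MvPolynomial.map ι0 Fm}) (MvPolynomial.map ι0) hle
        (qm Fm (MvPolynomial.C g)) = qm (MvPolynomial.map ι0 Fm) (MvPolynomial.C (ι0 g)) := by
      rw [qm, Ideal.quotientMap_mk, MvPolynomial.map_C]
    rw [e9] at hgu'
    exact hs.split (hgu'.map MvPolynomial.C)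
  have hp1 := h3 _ _ ι0 g hpat l
  have hne' : Ideal.Quotient.mk (Ideal.span {MvPolynomial.map ι0 Fm})
      (MvPolynomial.map ι0 (MvPolynomial.C g)) ≠ 0 := by
    rw [MvPolynomial.map_C]
    exact hne
  obtain ⟨ι', hι', hpat'⟩ := h4 (MvPolynomial (Fin l) A) (MvPolynomial (Fin l) P)
    (MvPolynomial.map ι0) (MvPolynomial.C g) hp1 Fm hDm hDp hgu hne'
  have hp2 := h3 _ _ ι' _ hpat' m
  have hs' : SplitAt (MvPolynomial.map ι' (MvPolynomial.C
      (Ideal.Quotient.mk (Ideal.span {Fm}) (MvPolynomial.C g)))) E := by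
    rw [MvPolynomial.map_C, hι', MvPolynomial.map_C]
    exact hs
  obtain ⟨n', E', hE', -, himp⟩ := h5 _ _ _ _ hp2 n E hE hs'
  exact himp (hAF m n' E' hE')

/-- the same for a localisation of a quotient -/
theorem coreB (h3 : S_TR) (h4 : S_QUOT) (h5 : S_PATCH) (hA : S_AWAYQ) {A P : Type} [CommRing A]
    [CommRing P] [IsNoetherianRing A] (ι0 : A →+* P) (g : A) (hpat : AnPatch ι0 g) (F : A)
    (F' : P) (hF' : ι0 F = F') (hDA : IsDomain (A ⧸ Ideal.span {F}))
    (hDP : IsDomain (P ⧸ Ideal.span {F'}))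
    (hg1 : Ideal.Quotient.mk (Ideal.span {F'}) (ι0 g) ≠ 0) (a : A) (a' : P) (ha' : ι0 a = a')
    (haA : Ideal.Quotient.mk (Ideal.span {F}) a ≠ 0)
    (haP : Ideal.Quotient.mk (Ideal.span {F'}) a' ≠ 0)
    (hAF : AF (QF (rel 1 (Ideal.Quotient.mk (Ideal.span {F}) a) 1))) (m n : ℕ)
    (E : Matrix (Fin n) (Fin n) (MvPolynomial (Fin m)
      (QF (rel 1 (Ideal.Quotient.mk (Ideal.span {F'}) a') 1)))) (hE : E * E = E)
    (hs : SplitAt (MvPolynomial.C (qm (rel 1 (Ideal.Quotient.mk (Ideal.span {F'}) a') 1)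
      (MvPolynomial.C (Ideal.Quotient.mk (Ideal.span {F'}) (ι0 g))))) E) : Split E := by
  subst hF' ha'
  by_cases hgu : IsUnit (Ideal.Quotient.mk (Ideal.span {F}) g)
  · have hle : Ideal.span {F} ≤ Ideal.comap ι0 (Ideal.span {ι0 F}) := by
      rw [Ideal.span_singleton_le_iff_mem, Ideal.mem_comap]
      exact Ideal.mem_span_singleton_self _
    have hgu' := hgu.map (Ideal.quotientMap (Ideal.span {ι0 F}) ι0 hle)
    rw [Ideal.quotientMap_mk] at hgu'
    exact hs.split (((hgu'.map MvPolynomial.C).map (qm _)).map MvPolynomial.C)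
  obtain ⟨ι', hι', hpat'⟩ := h4 A P ι0 g hpat F hDA hDP hgu hg1
  have hd1 := domQ1 hA (A ⧸ Ideal.span {F}) _ haA
  have hd2 := domQ1 hA (P ⧸ Ideal.span {ι0 F}) _ haP
  refine coreA h3 h4 h5 ι' (Ideal.Quotient.mk _ g) hpat' 1
    (rel 1 (Ideal.Quotient.mk (Ideal.span {F}) a) 1)
    (rel 1 (Ideal.Quotient.mk (Ideal.span {ι0 F}) (ι0 a)) 1) ?_ hd1.1 hd2.1 ?_ hAF m n E hE ?_
  · rw [map_rel, hι', map_one]
  · rw [hι']
    intro h0
    exact hg1 (hd2.2 _ h0)
  · rw [hι']
    exact hs

end HX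

end Pool.Agent.H40.BP
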