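import Pool.Agent.H40.BP.HX

/-!
# `(B[X]/(xX-p))[1/x] = B[1/x]`
-/

set_option autoImplicit false

open Polynomial

noncomputable section

namespace Pool.Agent.H40.BP

open BQ IsLocalRing Pool.Agent.W394.BQN

namespace HX

theorem const_inj (B : Type) [CommRing B] [IsDomain B] (x p : B) (hx : x ≠ 0) (b : B)
    (h : (Polynomial.C b : B[X]) ∈ Ideal.span {(Polynomial.C x * X - Polynomial.C p : B[X])}) :
    b = 0 := by
  rw [Ideal.mem_span_singleton] at h
  obtain ⟨q, hq⟩ := h
  by_contra hb
  have hF : (Polynomial.C x * X - Polynomial.C p : B[X]).natDegree = 1 := by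
    rw [Polynomial.natDegree_sub_C]
    exact Polynomial.natDegree_C_mul_X x hx
  have hF0 : (Polynomial.C x * X - Polynomial.C p : B[X]) ≠ 0 := by
    intro h0
    rw [h0, Polynomial.natDegree_zero] at hF
    exact zero_ne_one hF
  have hq0 : q ≠ 0 := by
    rintro rfl
    rw [mul_zero] at hq
    exact hb (Polynomial.C_eq_zero.1 hq)
  have h1 := congrArg Polynomial.natDegree hq
  rw [Polynomial.natDegree_C, Polynomial.natDegree_mul hF0 hq0, hF] at h1
  omega

theorem away_iso (B : Type) [CommRing B] [IsDomain B] (x p a : B) (hx : x ≠ 0) (F : B[X])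
    (hF : F = Polynomial.C x * X - Polynomial.C p) :
    Nonempty (Localization.Away (x * a) ≃+*
      Localization.Away (Ideal.Quotient.mk (Ideal.span {F}) (Polynomial.C (x * a)))) := by
  let f : B →+* B[X] ⧸ Ideal.span {F} := (Ideal.Quotient.mk (Ideal.span {F})).comp Polynomial.C
  have hf : Function.Injective f := by
    rw [injective_iff_map_eq_zero]
    intro b hb
    have h1 : (Polynomial.C b : B[X]) ∈ Ideal.span {F} := Ideal.Quotient.eq_zero_iff_mem.1 hb
    rw [hF] at h1
    exact const_inj B x p hx b h1
  have hX : f x * Ideal.Quotient.mk (Ideal.span {F}) X = f p := by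
    show Ideal.Quotient.mk (Ideal.span {F}) (Polynomial.C x) * Ideal.Quotient.mk (Ideal.span {F}) X
      = Ideal.Quotient.mk (Ideal.span {F}) (Polynomial.C p)
    rw [← map_mul, Ideal.Quotient.eq, Ideal.mem_span_singleton]
    exact ⟨1, by rw [hF, mul_one]⟩
  have hinj : Function.Injective (Localization.awayMap f x) := by
    rw [Localization.awayMap_injective_iff]
    intro a ha
    exact ⟨0, by rw [pow_zero, one_mul]; exact hf (by rw [ha, map_zero])⟩
  have hsurj : Function.Surjective (Localization.awayMap f x) := by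
    rw [Localization.awayMap_surjective_iff]
    intro α
    obtain ⟨P, rfl⟩ := Ideal.Quotient.mk_surjective α
    induction P using Polynomial.induction_on with
    | C a =>
      exact ⟨a, 0, by rw [pow_zero, one_mul]; rfl⟩
    | add P Q hP hQ =>
      obtain ⟨b, m, hb⟩ := hP
      obtain ⟨c, n, hc⟩ := hQ
      refine ⟨x ^ n * b + x ^ m * c, m + n, ?_⟩
      rw [map_add, map_mul, map_mul, hb, hc, map_pow, map_pow, map_add]
      ring
    | monomial n a h =>
      obtain ⟨b, m, hb⟩ := h
      refine ⟨p * b, m + 1, ?_⟩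
      have e : Ideal.Quotient.mk (Ideal.span {F}) (Polynomial.C a * X ^ (n + 1)) =
          Ideal.Quotient.mk (Ideal.span {F}) (Polynomial.C a * X ^ n) *
            Ideal.Quotient.mk (Ideal.span {F}) X := by
        rw [← map_mul, mul_assoc, ← pow_succ]
      rw [map_mul, hb, ← hX, e]
      ring
  have hinj' := Localization.awayMap_injective_of_dvd f (dvd_mul_right x a) hinj
  have hsurj' := Localization.awayMap_surjective_of_dvd f (dvd_mul_right x a) hsurj
  exact ⟨RingEquiv.ofBijective (Localization.awayMap f (x * a)) ⟨hinj', hsurj'⟩⟩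

end HX

end Pool.Agent.H40.BP
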